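import Mathlib

/-!
Points dividing a segment in a complete space satisfying the `CN` inequality.
-/

namespace Helper75tri

open Filter Topology

/-- the inequality of Bruhat and Tits: every pair of points has a midpoint in the CAT(0) sense -/
def CN (X : Type*) [PseudoMetricSpace X] : Prop :=
  ∀ x y : X, ∃ m : X, ∀ z : X,
    dist z m ^ 2 ≤ (dist z x ^ 2 + dist z y ^ 2) / 2 - dist x y ^ 2 / 4

section

variable {X : Type*} [MetricSpace X]

/-- `m` divides the segment from `p` to `q` in the ratio `l : 1 - l` -/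
def Dv (p q : X) (l : ℝ) (m : X) : Prop := ∀ x : X,
  dist x m ^ 2 ≤ (1 - l) * dist x p ^ 2 + l * dist x q ^ 2 - l * (1 - l) * dist p q ^ 2

lemma le_of_sq {a b : ℝ} (hb : 0 ≤ b) (h : a ^ 2 ≤ b ^ 2) : a ≤ b := by
  by_contra hc
  push Not at hc
  nlinarith

lemma Dv.left_le {p q : X} {l : ℝ} {m : X} (h : Dv p q l m) (h0 : 0 ≤ l) :
    dist p m ≤ l * dist p q := by
  refine le_of_sq (mul_nonneg h0 dist_nonneg) ?_
  have h1 := h p
  rw [dist_self] at h1
  nlinarith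

lemma Dv.right_le {p q : X} {l : ℝ} {m : X} (h : Dv p q l m) (h1 : l ≤ 1) :
    dist m q ≤ (1 - l) * dist p q := by
  refine le_of_sq (mul_nonneg (by linarith) dist_nonneg) ?_
  have h2 := h q
  rw [dist_self, dist_comm q p] at h2
  rw [dist_comm m q]
  nlinarith

lemma Dv.left {p q : X} {l : ℝ} {m : X} (h : Dv p q l m) (h0 : 0 ≤ l) (h1 : l ≤ 1) :
    dist p m = l * dist p q := by
  have e1 := h.left_le h0
  have e2 := h.right_le h1
  have e3 := dist_triangle p m q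
  linarith

lemma Dv.right {p q : X} {l : ℝ} {m : X} (h : Dv p q l m) (h0 : 0 ≤ l) (h1 : l ≤ 1) :
    dist m q = (1 - l) * dist p q := by
  have e1 := h.left_le h0
  have e2 := h.right_le h1
  have e3 := dist_triangle p m q
  linarith

lemma Dv.dist_sq {p q : X} {s t : ℝ} {m n : X} (h : Dv p q s m) (h' : Dv p q t n)
    (h0 : 0 ≤ s) (h1 : s ≤ 1) :
    dist m n ≤ |s - t| * dist p q := by
  refine le_of_sq (by positivity) ?_
  have e1 := h' m
  have e2 := h.left h0 h1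
  have e3 := h.right h0 h1
  rw [dist_comm m p, e2, e3] at e1
  rw [mul_pow, sq_abs]
  nlinarith

lemma Dv.dist {p q : X} {s t : ℝ} {m n : X} (h : Dv p q s m) (h' : Dv p q t n)
    (h0 : 0 ≤ s) (h1 : s ≤ 1) (h0' : 0 ≤ t) (h1' : t ≤ 1) :
    dist m n = |s - t| * dist p q := by
  refine le_antisymm (h.dist_sq h' h0 h1) ?_
  rcases le_total s t with hst | hst
  · have e1 := h.left h0 h1
    have e2 := h'.right h0' h1'
    have e3 := dist_triangle4 p m n q
    rw [abs_of_nonpos (by linarith)]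
    linarith
  · have e1 := h'.left h0' h1'
    have e2 := h.right h0 h1
    have e3 := dist_triangle4 p n m q
    rw [dist_comm n m] at e3
    rw [abs_of_nonneg (by linarith)]
    linarith

/-- uniqueness: a point with the right distances is the dividing point -/
lemma Dv.uniq {p q : X} {l : ℝ} {m m' : X} (h : Dv p q l m) (h0 : 0 ≤ l) (h1 : l ≤ 1)
    (e1 : Dist.dist p m' ≤ l * Dist.dist p q) (e2 : Dist.dist m' q ≤ (1 - l) * Dist.dist p q) :
    m' = m := by
  have h2 := h m'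
  have e3 : Dist.dist m' p ^ 2 ≤ (l * Dist.dist p q) ^ 2 := by
    rw [dist_comm m' p]
    exact pow_le_pow_left₀ dist_nonneg e1 2
  have e4 : Dist.dist m' q ^ 2 ≤ ((1 - l) * Dist.dist p q) ^ 2 :=
    pow_le_pow_left₀ dist_nonneg e2 2
  have e5 : Dist.dist m' m ^ 2 ≤ 0 := by
    have g1 := mul_le_mul_of_nonneg_left e3 (by linarith : (0 : ℝ) ≤ 1 - l)
    have g2 := mul_le_mul_of_nonneg_left e4 h0
    nlinarith
  have e6 : Dist.dist m' m = 0 := by
    have := sq_nonneg (Dist.dist m' m)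
    exact pow_eq_zero_iff two_ne_zero |>.1 (le_antisymm e5 this)
  exact dist_eq_zero.1 e6

lemma Dv.mid (hX : CN X) {p q : X} {l r : ℝ} {m m' : X} (h : Dv p q l m) (h' : Dv p q r m')
    (h0 : 0 ≤ l) (h1 : r ≤ 1) (hl : l ≤ r) : ∃ c, Dv p q ((l + r) / 2) c := by
  obtain ⟨c, hc⟩ := hX m m'
  refine ⟨c, fun x => ?_⟩
  have e3 : (r - l) * Dist.dist p q = Dist.dist m m' := by
    rw [h.dist h' h0 (hl.trans h1) (h0.trans hl) h1, abs_of_nonpos (by linarith)]
    ring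
  have e5 := hc x
  have e6 := h x
  have e7 := h' x
  rw [← e3] at e5
  have e8 : (1 - (l + r) / 2) * Dist.dist x p ^ 2 + (l + r) / 2 * Dist.dist x q ^ 2 -
      (l + r) / 2 * (1 - (l + r) / 2) * Dist.dist p q ^ 2 =
      (((1 - l) * Dist.dist x p ^ 2 + l * Dist.dist x q ^ 2 - l * (1 - l) * Dist.dist p q ^ 2) +
        ((1 - r) * Dist.dist x p ^ 2 + r * Dist.dist x q ^ 2 -
          r * (1 - r) * Dist.dist p q ^ 2)) / 2 -
        ((r - l) * Dist.dist p q) ^ 2 / 4 := by ring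
  rw [e8]
  linarith

theorem dv_dyadic (hX : CN X) (p q : X) : ∀ (n j : ℕ), j ≤ 2 ^ n →
    ∃ m, Dv p q ((j : ℝ) / 2 ^ n) m := by
  intro n
  induction n with
  | zero =>
    intro j hj
    rw [pow_zero] at hj
    rcases Nat.le_one_iff_eq_zero_or_eq_one.1 hj with rfl | rfl
    · exact ⟨p, fun x => by simp⟩
    · exact ⟨q, fun x => by simp⟩
  | succ n ih =>
    intro j hj
    rw [pow_succ] at hj
    rcases Nat.even_or_odd' j with ⟨i, rfl | rfl⟩
    · obtain ⟨m, hm⟩ := ih i (by omega)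
      refine ⟨m, ?_⟩
      have : (((2 * i : ℕ) : ℝ)) / 2 ^ (n + 1) = (i : ℝ) / 2 ^ n := by
        push_cast
        rw [pow_succ]
        field_simp
      rw [this]
      exact hm
    · obtain ⟨m, hm⟩ := ih i (by omega)
      obtain ⟨m', hm'⟩ := ih (i + 1) (by omega)
      have h2 : (0 : ℝ) < 2 ^ n := by positivity
      have h3 : ((i : ℝ) + 1) / 2 ^ n ≤ 1 := by
        rw [div_le_one h2]
        have : i + 1 ≤ 2 ^ n := by omega
        exact_mod_cast this
      obtain ⟨c, hc⟩ := hm.mid hX hm' (by positivity) (by push_cast; exact h3)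
        (by push_cast; gcongr; linarith)
      refine ⟨c, ?_⟩
      have : (((2 * i + 1 : ℕ) : ℝ)) / 2 ^ (n + 1) =
          ((i : ℝ) / 2 ^ n + ((i + 1 : ℕ) : ℝ) / 2 ^ n) / 2 := by
        push_cast
        rw [pow_succ]
        field_simp
        ring
      rw [this]
      exact hc

theorem dv_exists [CompleteSpace X] (hX : CN X) (p q : X) (l : ℝ) (h0 : 0 ≤ l) (h1 : l ≤ 1) :
    ∃ m, Dv p q l m := by
  have hfl : ∀ n : ℕ, ⌊l * 2 ^ n⌋₊ ≤ 2 ^ n := by
    intro n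
    have h2 : (⌊l * 2 ^ n⌋₊ : ℝ) ≤ 2 ^ n := by
      refine (Nat.floor_le (by positivity)).trans ?_
      have : (0 : ℝ) < 2 ^ n := by positivity
      nlinarith
    exact_mod_cast h2
  choose m hm using fun n : ℕ => dv_dyadic hX p q n ⌊l * 2 ^ n⌋₊ (hfl n)
  have hl : Tendsto (fun n : ℕ => (⌊l * 2 ^ n⌋₊ : ℝ) / 2 ^ n) atTop (𝓝 l) :=
    (tendsto_nat_floor_mul_div_atTop h0).comp
      (tendsto_pow_atTop_atTop_of_one_lt (one_lt_two : (1 : ℝ) < 2))
  have hle : ∀ n : ℕ, (⌊l * 2 ^ n⌋₊ : ℝ) / 2 ^ n ≤ 1 := by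
    intro n
    rw [div_le_one (by positivity)]
    exact_mod_cast hfl n
  have hdist : ∀ i j, Dist.dist (m i) (m j) ≤
      |(⌊l * 2 ^ i⌋₊ : ℝ) / 2 ^ i - (⌊l * 2 ^ j⌋₊ : ℝ) / 2 ^ j| * Dist.dist p q := fun i j =>
    (hm i).dist_sq (hm j) (by positivity) (hle i)
  have hcau : CauchySeq m := by
    have hc := hl.cauchySeq
    rw [Metric.cauchySeq_iff'] at hc ⊢
    intro ε hε
    obtain ⟨N, hN⟩ := hc (ε / (Dist.dist p q + 1)) (by positivity)
    refine ⟨N, fun n hn => ?_⟩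
    have h2 := hN n hn
    rw [Real.dist_eq] at h2
    have h3 : (0 : ℝ) < Dist.dist p q + 1 := by positivity
    have h4 := hdist n N
    rw [lt_div_iff₀ h3] at h2
    have h5 := abs_nonneg ((⌊l * 2 ^ n⌋₊ : ℝ) / 2 ^ n - (⌊l * 2 ^ N⌋₊ : ℝ) / 2 ^ N)
    nlinarith
  obtain ⟨c, hc⟩ := cauchySeq_tendsto_of_complete hcau
  refine ⟨c, fun x => ?_⟩
  have t1 : Tendsto (fun n => Dist.dist x (m n) ^ 2) atTop (𝓝 (Dist.dist x c ^ 2)) :=
    (tendsto_const_nhds.dist hc).pow 2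
  have t2 : Tendsto (fun n => (1 - (⌊l * 2 ^ n⌋₊ : ℝ) / 2 ^ n) * Dist.dist x p ^ 2 +
      (⌊l * 2 ^ n⌋₊ : ℝ) / 2 ^ n * Dist.dist x q ^ 2 -
      (⌊l * 2 ^ n⌋₊ : ℝ) / 2 ^ n * (1 - (⌊l * 2 ^ n⌋₊ : ℝ) / 2 ^ n) *
        Dist.dist p q ^ 2) atTop
      (𝓝 ((1 - l) * Dist.dist x p ^ 2 + l * Dist.dist x q ^ 2 -
        l * (1 - l) * Dist.dist p q ^ 2)) :=
    (((tendsto_const_nhds.sub hl).mul_const _).add (hl.mul_const _)).sub
      ((hl.mul (tendsto_const_nhds.sub hl)).mul_const _)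
  exact le_of_tendsto_of_tendsto' t1 t2 fun n => hm n x

/-- a point with the right distances is the dividing point -/
lemma Dv.of_dist [CompleteSpace X] (hX : CN X) {p q : X} {l : ℝ} {m : X} (h0 : 0 ≤ l)
    (h1 : l ≤ 1) (e1 : Dist.dist p m ≤ l * Dist.dist p q)
    (e2 : Dist.dist m q ≤ (1 - l) * Dist.dist p q) : Dv p q l m := by
  obtain ⟨c, hc⟩ := dv_exists hX p q l h0 h1
  rw [hc.uniq h0 h1 e1 e2]
  exact hc

/-- Dividing points of two sides of a triangle issued from the same vertex -/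
lemma Dv.common {p q q' : X} {l : ℝ} {m n : X} (h : Dv p q l m) (h' : Dv p q' l n)
    (h0 : 0 ≤ l) (h1 : l ≤ 1) : Dist.dist m n ≤ l * Dist.dist q q' := by
  refine le_of_sq (by positivity) ?_
  have e1 := h' m
  have e2 := h q'
  have e3 := h.left h0 h1
  rw [dist_comm m p, e3] at e1
  rw [dist_comm q' m, dist_comm q' p, dist_comm q' q] at e2
  have e4 := mul_le_mul_of_nonneg_left e2 h0
  nlinarith

lemma Dv.symm {p q : X} {l : ℝ} {m : X} (h : Dv p q l m) : Dv q p (1 - l) m := by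
  intro x
  have := h x
  rw [dist_comm q p]
  nlinarith

/-- convexity of the distance -/
lemma Dv.convex [CompleteSpace X] (hX : CN X) {p q p' q' : X} {l : ℝ} {m n : X}
    (h : Dv p q l m) (h' : Dv p' q' l n) (h0 : 0 ≤ l) (h1 : l ≤ 1) :
    Dist.dist m n ≤ (1 - l) * Dist.dist p p' + l * Dist.dist q q' := by
  obtain ⟨c, hc⟩ := dv_exists hX p q' l h0 h1
  have e1 := h.common hc h0 h1
  have e2 := hc.symm.common h'.symm (by linarith) (by linarith)
  have e3 := dist_triangle m c n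
  linarith

/-- the quadrilateral inequality -/
lemma quad {x1 x2 x3 x4 m n : X} (hm : Dv x1 x3 (1 / 2) m) (hn : Dv x2 x4 (1 / 2) n) :
    Dist.dist x1 x3 ^ 2 + Dist.dist x2 x4 ^ 2 + 4 * Dist.dist m n ^ 2 ≤
      Dist.dist x1 x2 ^ 2 + Dist.dist x2 x3 ^ 2 + Dist.dist x3 x4 ^ 2 + Dist.dist x4 x1 ^ 2 := by
  have e1 := hn m
  have e2 := hm x2
  have e3 := hm x4
  rw [dist_comm m x2, dist_comm m x4] at e1
  rw [dist_comm x2 x1] at e2
  rw [dist_comm x4 x3] at e3
  nlinarith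

end

end Helper75tri
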