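import Mathlib

/-!
Combinatorial core: in a graph `Γ` with base point `p` whose links contain no triangle and no closed
walk of length five and whose distance levels satisfy the two convexity properties `P1`, `P2`,
the map `(level, E)` to the plane has the following property: a path which stays in a box of
side `s` has endpoints at distance at most a constant times `s`.
-/

namespace Helper75tri

open Relation

variable {V : Type*} {Γ : SimpleGraph V} {p : V}

/-- `a` is a parent of `v`: a neighbour one step closer to `p`. -/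
def IsPar (Γ : SimpleGraph V) (p a v : V) : Prop :=
  Γ.Adj v a ∧ Γ.dist p v = Γ.dist p a + 1

/-- The combinatorial hypotheses. -/
structure Front (Γ : SimpleGraph V) (p : V) : Prop where
  conn : Γ.Connected
  k4 : ∀ a b c d, Γ.Adj a b → Γ.Adj a c → Γ.Adj a d → Γ.Adj b c → Γ.Adj b d → Γ.Adj c d → False
  c5 : ∀ v a b c d e, Γ.Adj v a → Γ.Adj v b → Γ.Adj v c → Γ.Adj v d → Γ.Adj v e →
    Γ.Adj a b → Γ.Adj b c → Γ.Adj c d → Γ.Adj d e → Γ.Adj e a → False
  P1 : ∀ v a b, IsPar Γ p a v → IsPar Γ p b v → a ≠ b → Γ.Adj a b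
  P2 : ∀ v w, Γ.Adj v w → Γ.dist p v = Γ.dist p w → ∃ a, IsPar Γ p a v ∧ IsPar Γ p a w

namespace Front

lemma par_level {a v : V} (h : IsPar Γ p a v) : Γ.dist p v = Γ.dist p a + 1 := h.2

lemma exists_par (F : Front Γ p) {v : V} (h : 0 < Γ.dist p v) : ∃ a, IsPar Γ p a v := by
  obtain ⟨w, hw⟩ := F.conn.exists_walk_length_eq_dist v p
  cases w with
  | nil => simp at h
  | @cons _ a _ hadj w' =>
    refine ⟨a, hadj, ?_⟩
    have h1 : Γ.dist a p ≤ w'.length := SimpleGraph.dist_le w'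
    have h2 : w'.length + 1 = Γ.dist v p := by simpa using hw
    have h3 : Γ.dist v p ≤ Γ.dist v a + Γ.dist a p := F.conn.dist_triangle
    have h4 : Γ.dist v a = 1 := SimpleGraph.dist_eq_one_iff_adj.mpr hadj
    rw [SimpleGraph.dist_comm (u := p) (v := v), SimpleGraph.dist_comm (u := p) (v := a)]
    omega

/-- adjacent vertices have levels differing by at most one -/
lemma level_adj (F : Front Γ p) {v w : V} (h : Γ.Adj v w) :
    Γ.dist p v ≤ Γ.dist p w + 1 := by
  have h3 : Γ.dist p v ≤ Γ.dist p w + Γ.dist w v := F.conn.dist_triangle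
  have h4 : Γ.dist w v = 1 := SimpleGraph.dist_eq_one_iff_adj.mpr h.symm
  omega

/-- `x` is the common parent of two distinct parents of `v`. -/
def Two (Γ : SimpleGraph V) (p v x : V) : Prop :=
  ∃ a b, IsPar Γ p a v ∧ IsPar Γ p b v ∧ a ≠ b ∧ IsPar Γ p x a ∧ IsPar Γ p x b

lemma two_par (F : Front Γ p) {v a b c : V} (ha : IsPar Γ p a v) (hb : IsPar Γ p b v)
    (hc : IsPar Γ p c v) (hab : a ≠ b) : c = a ∨ c = b := by
  by_contra hcon
  push Not at hcon
  exact F.k4 v a b c ha.1 hb.1 hc.1 (F.P1 v a b ha hb hab) (F.P1 v a c ha hc (Ne.symm hcon.1))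
    (F.P1 v b c hb hc (Ne.symm hcon.2))

lemma common_unique (F : Front Γ p) {v w c d : V} (hvw : Γ.Adj v w) (hc : IsPar Γ p c v)
    (hc' : IsPar Γ p c w) (hd : IsPar Γ p d v) (hd' : IsPar Γ p d w) : c = d := by
  by_contra hne
  exact F.k4 v w c d hvw hc.1 hd.1 hc'.1 hd'.1 (F.P1 v c d hc hd hne)

lemma two_unique (F : Front Γ p) {v x y : V} (hx : Two Γ p v x) (hy : Two Γ p v y) : x = y := by
  obtain ⟨a, b, ha, hb, hab, hxa, hxb⟩ := hx
  obtain ⟨c, d, hc, hd, hcd, hyc, hyd⟩ := hy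
  have hadj := F.P1 v a b ha hb hab
  rcases F.two_par ha hb hc hab with rfl | rfl
  · rcases F.two_par ha hb hd hab with rfl | rfl
    · exact absurd rfl hcd
    · exact F.common_unique hadj hxa hxb hyc hyd
  · rcases F.two_par ha hb hd hab with rfl | rfl
    · exact F.common_unique hadj hxa hxb hyd hyc
    · exact absurd rfl hcd

lemma two_level {v x : V} (h : Two Γ p v x) : Γ.dist p v = Γ.dist p x + 2 := by
  obtain ⟨a, b, ha, hb, hab, hxa, hxb⟩ := h
  rw [ha.2, hxa.2]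

end Front

open Front

open Classical in
/-- the second coordinate, level by level -/
noncomputable def Elev (Γ : SimpleGraph V) (p : V) : ℕ → V → ℕ
  | 0, _ => 0
  | 1, _ => 0
  | (n + 2), v =>
    if h : ∃ x, Two Γ p v x then Elev Γ p n h.choose + 1
    else if h : ∃ a, IsPar Γ p a v then Elev Γ p (n + 1) h.choose else 0

/-- the second coordinate -/
noncomputable def Ec (Γ : SimpleGraph V) (p v : V) : ℕ := Elev Γ p (Γ.dist p v) v

namespace Front

lemma E_two (F : Front Γ p) {v x : V} (h : Two Γ p v x) : Ec Γ p v = Ec Γ p x + 1 := by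
  have hl := two_level h
  have hex : ∃ x, Two Γ p v x := ⟨x, h⟩
  have : hex.choose = x := F.two_unique hex.choose_spec h
  unfold Ec
  rw [hl]
  simp only [Elev]
  rw [dif_pos hex, this]

lemma E_one (_F : Front Γ p) {v a : V} (h : IsPar Γ p a v) (hu : ∀ b, IsPar Γ p b v → b = a) :
    Ec Γ p v = Ec Γ p a := by
  have hl := h.2
  unfold Ec
  rcases Nat.eq_zero_or_pos (Γ.dist p a) with h0 | h0
  · rw [hl, h0]
    simp [Elev]
  · obtain ⟨n, hn⟩ : ∃ n, Γ.dist p a = n + 1 := ⟨Γ.dist p a - 1, by omega⟩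
    rw [hl, hn]
    have hno : ¬ ∃ x, Two Γ p v x := by
      rintro ⟨x, c, d, hc, hd, hcd, -, -⟩
      exact hcd ((hu c hc).trans (hu d hd).symm)
    have hex : ∃ a, IsPar Γ p a v := ⟨a, h⟩
    have : hex.choose = a := hu _ hex.choose_spec
    conv_lhs => simp only [Elev]
    rw [dif_neg hno, dif_pos hex, this]

/-- if `v` has two parents `a ≠ b`, there is a common parent `x` of them with `Two v x` -/
lemma exists_two (F : Front Γ p) {v a b : V} (ha : IsPar Γ p a v) (hb : IsPar Γ p b v)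
    (hab : a ≠ b) : ∃ x, IsPar Γ p x a ∧ IsPar Γ p x b ∧ Ec Γ p v = Ec Γ p x + 1 := by
  have hadj := F.P1 v a b ha hb hab
  obtain ⟨x, hxa, hxb⟩ := F.P2 a b hadj (by have := ha.2; have := hb.2; omega)
  exact ⟨x, hxa, hxb, F.E_two ⟨a, b, ha, hb, hab, hxa, hxb⟩⟩

/-- Claim A -/
lemma E_par (F : Front Γ p) {x a : V} (h : IsPar Γ p x a) :
    Ec Γ p x ≤ Ec Γ p a ∧ Ec Γ p a ≤ Ec Γ p x + 1 := by
  suffices H : ∀ n, ∀ x a, Γ.dist p a = n → IsPar Γ p x a →
      Ec Γ p x ≤ Ec Γ p a ∧ Ec Γ p a ≤ Ec Γ p x + 1 from H _ x a rfl h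
  intro n
  induction n using Nat.strong_induction_on with
  | _ n ih =>
    intro x a hn h
    by_cases hu : ∀ b, IsPar Γ p b a → b = x
    · rw [F.E_one h hu]
      omega
    · push Not at hu
      obtain ⟨y, hy, hyx⟩ := hu
      obtain ⟨z, hzx, hzy, hE⟩ := F.exists_two h hy (Ne.symm hyx)
      have := ih (Γ.dist p x) (by have := h.2; omega) z x rfl hzx
      omega

lemma E_adj (F : Front Γ p) {v w : V} (h : Γ.Adj v w) : Ec Γ p v ≤ Ec Γ p w + 1 := by
  have h1 := F.level_adj h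
  have h2 := F.level_adj h.symm
  rcases lt_trichotomy (Γ.dist p v) (Γ.dist p w) with hlt | heq | hgt
  · have hp : IsPar Γ p v w := ⟨h.symm, by omega⟩
    have := F.E_par hp
    omega
  · obtain ⟨c, hc, hc'⟩ := F.P2 v w h heq
    have := F.E_par hc
    have := F.E_par hc'
    omega
  · have hp : IsPar Γ p w v := ⟨h, by omega⟩
    have := F.E_par hp
    omega

/-- Claim C -/
lemma E_hor (F : Front Γ p) {v w c : V} (h : Γ.Adj v w) (hc : IsPar Γ p c v)
    (hc' : IsPar Γ p c w) : Ec Γ p v = Ec Γ p c ∨ Ec Γ p w = Ec Γ p c := by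
  suffices H : ∀ n, ∀ v w c, Γ.dist p v = n → Γ.Adj v w → IsPar Γ p c v → IsPar Γ p c w →
      Ec Γ p v = Ec Γ p c ∨ Ec Γ p w = Ec Γ p c from H _ v w c rfl h hc hc'
  intro n
  induction n using Nat.strong_induction_on with
  | _ n ih =>
    intro v w c hn h hc hc'
    by_cases hu : ∀ b, IsPar Γ p b v → b = c
    · exact Or.inl (F.E_one hc hu)
    by_cases hu' : ∀ b, IsPar Γ p b w → b = c
    · exact Or.inr (F.E_one hc' hu')
    push Not at hu hu'
    obtain ⟨c1, hc1, hne1⟩ := hu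
    obtain ⟨c2, hc2, hne2⟩ := hu'
    obtain ⟨x, hxc, hxc1, hEx⟩ := F.exists_two hc hc1 (Ne.symm hne1)
    obtain ⟨y, hyc, hyc2, hEy⟩ := F.exists_two hc' hc2 (Ne.symm hne2)
    by_cases hxy : x = y
    · subst hxy
      exfalso
      -- closed walk v w c2 x c1 in the link of c
      exact F.c5 c v w c2 x c1 hc.1.symm hc'.1.symm (F.P1 w c c2 hc' hc2 (Ne.symm hne2)) hxc.1
        (F.P1 v c c1 hc hc1 (Ne.symm hne1)) h hc2.1 hyc2.1 hxc1.1.symm hc1.1.symm
    · obtain ⟨z, hzx, hzy, hEc⟩ := F.exists_two hxc hyc hxy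
      have hadj := F.P1 c x y hxc hyc hxy
      have h1 := hxc.2
      have h2 := hc.2
      have := ih (Γ.dist p x) (by omega) x y z rfl hadj hzx hzy
      omega

end Front

/-- one horizontal step inside the strip `L ≤ E < U` -/
def HStep (Γ : SimpleGraph V) (p : V) (L U : ℕ) (a b : V) : Prop :=
  Γ.Adj a b ∧ Γ.dist p a = Γ.dist p b ∧ L ≤ Ec Γ p b ∧ Ec Γ p b < U

/-- horizontally connected inside the strip -/
def HC (Γ : SimpleGraph V) (p : V) (L U : ℕ) (a b : V) : Prop :=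
  L ≤ Ec Γ p a ∧ Ec Γ p a < U ∧ ReflTransGen (HStep Γ p L U) a b

namespace HC

lemma right {L U : ℕ} {a b : V} (h : HC Γ p L U a b) : L ≤ Ec Γ p b ∧ Ec Γ p b < U := by
  obtain ⟨h1, h2, h3⟩ := h
  rcases ReflTransGen.cases_tail h3 with rfl | ⟨c, -, hc⟩
  · exact ⟨h1, h2⟩
  · exact ⟨hc.2.2.1, hc.2.2.2⟩

lemma level {L U : ℕ} {a b : V} (h : HC Γ p L U a b) : Γ.dist p a = Γ.dist p b := by
  obtain ⟨h1, h2, h3⟩ := h
  induction h3 with
  | refl => rfl
  | tail _ hbc ih => exact ih.trans hbc.2.1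

lemma refl {L U : ℕ} {a : V} (h1 : L ≤ Ec Γ p a) (h2 : Ec Γ p a < U) : HC Γ p L U a a :=
  ⟨h1, h2, ReflTransGen.refl⟩

lemma trans {L U : ℕ} {a b c : V} (h : HC Γ p L U a b) (h' : HC Γ p L U b c) :
    HC Γ p L U a c := ⟨h.1, h.2.1, h.2.2.trans h'.2.2⟩

lemma mono {L U L' U' : ℕ} {a b : V} (h : HC Γ p L U a b) (hL : L' ≤ L) (hU : U ≤ U') :
    HC Γ p L' U' a b := by
  refine ⟨hL.trans h.1, h.2.1.trans_le hU, ReflTransGen.mono ?_ _ _ h.2.2⟩
  intro x y hxy
  exact ⟨hxy.1, hxy.2.1, hL.trans hxy.2.2.1, hxy.2.2.2.trans_le hU⟩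

/-- a step from adjacent or equal vertices of the same level -/
lemma single {L U : ℕ} {a b : V} (h : a = b ∨ (Γ.Adj a b ∧ Γ.dist p a = Γ.dist p b))
    (h1 : L ≤ Ec Γ p a) (h2 : Ec Γ p a < U) (h3 : L ≤ Ec Γ p b) (h4 : Ec Γ p b < U) :
    HC Γ p L U a b := by
  rcases h with rfl | ⟨h, h'⟩
  · exact refl h1 h2
  · exact ⟨h1, h2, ReflTransGen.single ⟨h, h', h3, h4⟩⟩

lemma symm {L U : ℕ} {a b : V} (h : HC Γ p L U a b) : HC Γ p L U b a := by
  obtain ⟨h1, h2, h3⟩ := h
  induction h3 with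
  | refl => exact refl h1 h2
  | @tail b c hab hbc ih =>
    have hb : L ≤ Ec Γ p b ∧ Ec Γ p b < U := ⟨ih.1, ih.2.1⟩
    exact (single (Or.inr ⟨hbc.1.symm, hbc.2.1.symm⟩) hbc.2.2.1 hbc.2.2.2 hb.1 hb.2).trans ih

end HC

namespace Front

lemma par_or (F : Front Γ p) {v a b : V} (ha : IsPar Γ p a v) (hb : IsPar Γ p b v) :
    a = b ∨ (Γ.Adj a b ∧ Γ.dist p a = Γ.dist p b) := by
  by_cases h : a = b
  · exact Or.inl h
  · refine Or.inr ⟨F.P1 v a b ha hb h, ?_⟩
    have := ha.2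
    have := hb.2
    omega

/-- the key descent lemma -/
lemma key (F : Front Γ p) {L U : ℕ} {v w : V} (h : HC Γ p L U v w) :
    v = w ∨ ∃ a b, IsPar Γ p a v ∧ IsPar Γ p b w ∧ L ≤ Ec Γ p b ∧
      (a = b ∨ ∃ d d', IsPar Γ p d a ∧ IsPar Γ p d' b ∧ HC Γ p L (U - 1) d d') := by
  obtain ⟨h1, h2, h3⟩ := h
  induction h3 with
  | refl => exact Or.inl rfl
  | @tail w w' hvw hww' ih =>
    have hR : L ≤ Ec Γ p w ∧ Ec Γ p w < U := HC.right (⟨h1, h2, hvw⟩ : HC Γ p L U v w)
    obtain ⟨b', hb'w, hb'w'⟩ := F.P2 w w' hww'.1 hww'.2.1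
    have hE := F.E_hor hww'.1 hb'w hb'w'
    have hLb' : L ≤ Ec Γ p b' := by
      have := hww'.2.2.1
      omega
    right
    rcases ih with rfl | ⟨a, b, ha, hb, hLb, hor⟩
    · exact ⟨b', b', hb'w, hb'w', hLb', Or.inl rfl⟩
    · by_cases hbb : b = b'
      · subst hbb
        exact ⟨a, b, ha, hb'w', hLb, hor⟩
      · obtain ⟨d2, hd2b, hd2b', hEw⟩ := F.exists_two hb hb'w hbb
        have hadj := F.P1 w b b' hb hb'w hbb
        have hE2 := F.E_hor hadj hd2b hd2b'
        have hLd2 : L ≤ Ec Γ p d2 := by omega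
        have hUd2 : Ec Γ p d2 < U - 1 := by omega
        refine ⟨a, b', ha, hb'w', hLb', Or.inr ?_⟩
        rcases hor with rfl | ⟨d, d', hd, hd', hHC⟩
        · exact ⟨d2, d2, hd2b, hd2b', HC.refl hLd2 hUd2⟩
        · refine ⟨d, d2, hd, hd2b', hHC.trans ?_⟩
          exact HC.single (F.par_or hd' hd2b) hHC.right.1 hHC.right.2 hLd2 hUd2

lemma dist_par (_F : Front Γ p) {a v : V} (h : IsPar Γ p a v) : Γ.dist v a = 1 :=
  SimpleGraph.dist_eq_one_iff_adj.mpr h.1

/-- horizontally connected vertices in a strip of width `r` are at distance at most `4 r` -/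
theorem hc_dist (F : Front Γ p) (L r : ℕ) : ∀ {v w : V}, HC Γ p L (L + r) v w →
    Γ.dist v w ≤ 4 * r := by
  induction r with
  | zero =>
    intro v w h
    have := h.1
    have := h.2.1
    omega
  | succ r ih =>
    intro v w h
    rcases F.key h with rfl | ⟨a, b, ha, hb, hLb, hor⟩
    · simp
    · have d1 := F.dist_par ha
      have d2 := F.dist_par hb
      have d2' : Γ.dist b w = 1 := by rw [SimpleGraph.dist_comm]; exact d2
      rcases hor with rfl | ⟨d, d', hd, hd', hHC⟩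
      · have : Γ.dist v w ≤ Γ.dist v a + Γ.dist a w := F.conn.dist_triangle
        omega
      · have e1 := F.dist_par hd
        have e2 := F.dist_par hd'
        have e2' : Γ.dist d' b = 1 := by rw [SimpleGraph.dist_comm]; exact e2
        have hh : L + (r + 1) - 1 = L + r := by omega
        rw [hh] at hHC
        have := ih hHC
        have t1 : Γ.dist v w ≤ Γ.dist v a + Γ.dist a w := F.conn.dist_triangle
        have t2 : Γ.dist a w ≤ Γ.dist a d + Γ.dist d w := F.conn.dist_triangle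
        have t3 : Γ.dist d w ≤ Γ.dist d d' + Γ.dist d' w := F.conn.dist_triangle
        have t4 : Γ.dist d' w ≤ Γ.dist d' b + Γ.dist b w := F.conn.dist_triangle
        omega

/-- one generation down -/
lemma hc_par (F : Front Γ p) {L U : ℕ} {a a' : V} (h : HC Γ p L U a a') :
    ∀ {u u' : V}, IsPar Γ p u a → IsPar Γ p u' a' → HC Γ p (L - 1) U u u' := by
  obtain ⟨h1, h2, h3⟩ := h
  induction h3 with
  | refl =>
    intro u u' hu hu'
    have e1 := F.E_par hu
    have e2 := F.E_par hu'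
    exact HC.single (F.par_or hu hu') (by omega) (by omega) (by omega) (by omega)
  | @tail b c hab hbc ih =>
    intro u u' hu hu'
    obtain ⟨d, hdb, hdc⟩ := F.P2 b c hbc.1 hbc.2.1
    have h := ih hu hdb
    refine h.trans ?_
    have e1 := F.E_par hdc
    have e2 := F.E_par hu'
    have := hbc.2.2.1
    have := hbc.2.2.2
    exact HC.single (F.par_or hdc hu') (by omega) (by omega) (by omega) (by omega)

/-- `u` is an ancestor of `v`, `j` generations down -/
def Anc (Γ : SimpleGraph V) (p : V) : ℕ → V → V → Prop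
  | 0, v, u => v = u
  | (j + 1), v, u => ∃ a, IsPar Γ p a v ∧ Anc Γ p j a u

lemma anc_dist (F : Front Γ p) : ∀ (j : ℕ) {v u : V}, Anc Γ p j v u → Γ.dist v u ≤ j
  | 0, v, u, h => by
    have : v = u := h
    subst this
    simp
  | (j + 1), v, u, h => by
    obtain ⟨a, ha, hau⟩ := h
    have h1 := anc_dist F j hau
    have h2 := F.dist_par ha
    have : Γ.dist v u ≤ Γ.dist v a + Γ.dist a u := F.conn.dist_triangle
    omega

lemma anc_exists (F : Front Γ p) : ∀ (j : ℕ) {v : V}, j ≤ Γ.dist p v → ∃ u, Anc Γ p j v u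
  | 0, v, _ => ⟨v, rfl⟩
  | (j + 1), v, h => by
    obtain ⟨a, ha⟩ := F.exists_par (v := v) (by omega)
    obtain ⟨u, hu⟩ := anc_exists F j (v := a) (by have := ha.2; omega)
    exact ⟨u, a, ha, hu⟩

lemma hc_anc (F : Front Γ p) : ∀ (j : ℕ) {L U : ℕ} {a a' u u' : V}, HC Γ p L U a a' →
    Anc Γ p j a u → Anc Γ p j a' u' → HC Γ p (L - j) U u u'
  | 0, L, U, a, a', u, u', h, hu, hu' => by
    have e1 : a = u := hu
    have e2 : a' = u' := hu'
    subst e1 e2
    simpa using h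
  | (j + 1), L, U, a, a', u, u', h, hu, hu' => by
    obtain ⟨b, hb, hbu⟩ := hu
    obtain ⟨b', hb', hbu'⟩ := hu'
    have h1 := F.hc_par h hb hb'
    have h2 := hc_anc F j h1 hbu hbu'
    have : L - (j + 1) = L - 1 - j := by omega
    rw [this]
    exact h2

/-- a path in a box: all ancestors at the bottom level are horizontally connected -/
lemma walk_anc (F : Front Γ p) {m s L U : ℕ} {x y : V}
    (hx : m ≤ Γ.dist p x ∧ Γ.dist p x ≤ m + s ∧ L ≤ Ec Γ p x ∧ Ec Γ p x < U)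
    (h : ReflTransGen (fun a b => Γ.Adj a b ∧
      (m ≤ Γ.dist p b ∧ Γ.dist p b ≤ m + s ∧ L ≤ Ec Γ p b ∧ Ec Γ p b < U)) x y) :
    ∀ u u', Anc Γ p (Γ.dist p x - m) x u → Anc Γ p (Γ.dist p y - m) y u' →
      HC Γ p (L - s) U u u' := by
  induction h with
  | refl =>
    intro u u' hu hu'
    refine (F.hc_anc _ (HC.refl hx.2.2.1 hx.2.2.2) hu hu').mono ?_ le_rfl
    omega
  | @tail y z hxy hyz ih =>
    intro u u' hu hu'
    have hy : m ≤ Γ.dist p y ∧ Γ.dist p y ≤ m + s ∧ L ≤ Ec Γ p y ∧ Ec Γ p y < U := by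
      rcases ReflTransGen.cases_tail hxy with rfl | ⟨c, -, hc⟩
      · exact hx
      · exact hc.2
    obtain ⟨hadj, hz⟩ := hyz
    have l1 := F.level_adj hadj
    have l2 := F.level_adj hadj.symm
    obtain ⟨w, hw⟩ := F.anc_exists (Γ.dist p y - m) (v := y) (by omega)
    have h1 := ih u w hu hw
    refine h1.trans ?_
    rcases lt_trichotomy (Γ.dist p y) (Γ.dist p z) with hlt | heq | hgt
    · -- y is a parent of z
      have hp : IsPar Γ p y z := ⟨hadj.symm, by omega⟩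
      obtain ⟨j, hj⟩ : ∃ j, Γ.dist p y - m = j := ⟨_, rfl⟩
      have hj' : Γ.dist p z - m = j + 1 := by omega
      rw [hj] at hw
      rw [hj'] at hu'
      obtain ⟨b, hb, hbu⟩ := hu'
      have e1 := F.E_par hb
      have hs : HC Γ p (L - 1) U y b :=
        HC.single (F.par_or hp hb) (by omega) (by omega) (by omega) (by omega)
      exact (F.hc_anc j hs hw hbu).mono (by omega) le_rfl
    · have hs : HC Γ p L U y z :=
        HC.single (Or.inr ⟨hadj, heq⟩) (by omega) (by omega) (by omega) (by omega)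
      rw [← heq] at hu'
      exact (F.hc_anc _ hs hw hu').mono (by omega) le_rfl
    · have hp : IsPar Γ p z y := ⟨hadj, by omega⟩
      obtain ⟨j, hj⟩ : ∃ j, Γ.dist p z - m = j := ⟨_, rfl⟩
      have hj' : Γ.dist p y - m = j + 1 := by omega
      rw [hj] at hu'
      rw [hj'] at hw
      obtain ⟨b, hb, hbu⟩ := hw
      have e1 := F.E_par hb
      have hs : HC Γ p (L - 1) U b z :=
        HC.single (F.par_or hb hp) (by omega) (by omega) (by omega) (by omega)
      exact (F.hc_anc j hs hbu hu').mono (by omega) le_rfl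

/-- **Main combinatorial theorem.** -/
theorem box_dist (F : Front Γ p) {m s L r : ℕ} {x y : V}
    (hx : m ≤ Γ.dist p x ∧ Γ.dist p x ≤ m + s ∧ L ≤ Ec Γ p x ∧ Ec Γ p x < L + r)
    (h : ReflTransGen (fun a b => Γ.Adj a b ∧
      (m ≤ Γ.dist p b ∧ Γ.dist p b ≤ m + s ∧ L ≤ Ec Γ p b ∧ Ec Γ p b < L + r)) x y) :
    Γ.dist x y ≤ 6 * s + 4 * r := by
  have hy : m ≤ Γ.dist p y ∧ Γ.dist p y ≤ m + s ∧ L ≤ Ec Γ p y ∧ Ec Γ p y < L + r := by
    rcases ReflTransGen.cases_tail h with rfl | ⟨c, -, hc⟩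
    · exact hx
    · exact hc.2
  obtain ⟨u, hu⟩ := F.anc_exists (Γ.dist p x - m) (v := x) (by omega)
  obtain ⟨w, hw⟩ := F.anc_exists (Γ.dist p y - m) (v := y) (by omega)
  have h1 := F.walk_anc hx h u w hu hw
  have h2 : HC Γ p (L - s) ((L - s) + (r + s)) u w := h1.mono le_rfl (by omega)
  have h3 := F.hc_dist _ _ h2
  have h4 := F.anc_dist _ hu
  have h5 := F.anc_dist _ hw
  have t1 : Γ.dist x y ≤ Γ.dist x u + Γ.dist u y := F.conn.dist_triangle
  have t2 : Γ.dist u y ≤ Γ.dist u w + Γ.dist w y := F.conn.dist_triangle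
  have t3 : Γ.dist w y = Γ.dist y w := SimpleGraph.dist_comm
  omega

end Front

end Helper75tri
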