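import Mathlib
import Pool.Agent.Helper75_tri.Comb

/-!
From the combinatorial theorem to coloured covers.
-/

namespace Helper75tri

open Relation

/-- the chain relation of a colouring at scale `R` -/
def Lnk {X : Type*} [PseudoMetricSpace X] (col : X → Fin 3) (R : ℝ) (a b : X) : Prop :=
  dist a b < R ∧ col a = col b

lemma lnk_symm {X : Type*} [PseudoMetricSpace X] {col : X → Fin 3} {R : ℝ} {a b : X}
    (h : Lnk col R a b) : Lnk col R b a := ⟨by rw [dist_comm]; exact h.1, h.2.symm⟩

lemma chain_symm {X : Type*} [PseudoMetricSpace X] {col : X → Fin 3} {R : ℝ} {a b : X}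
    (h : ReflTransGen (Lnk col R) a b) : ReflTransGen (Lnk col R) b a := by
  induction h with
  | refl => exact ReflTransGen.refl
  | tail _ hbc ih => exact ReflTransGen.head (lnk_symm hbc) ih

lemma chain_col {X : Type*} [PseudoMetricSpace X] {col : X → Fin 3} {R : ℝ} {a b : X}
    (h : ReflTransGen (Lnk col R) a b) : col a = col b := by
  induction h with
  | refl => rfl
  | tail _ hbc ih => exact ih.trans hbc.2

/-- a colouring with controlled chains gives a coloured cover -/
theorem cover_of_col {X : Type*} [PseudoMetricSpace X] (col : X → Fin 3) (R D : ℝ)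
    (h : ∀ x y, ReflTransGen (Lnk col R) x y → dist x y ≤ D) :
    ∃ (𝒰 : Set (Set X)) (c : Set X → Fin 3),
      (∀ x : X, ∃ U ∈ 𝒰, x ∈ U) ∧
      (∀ U ∈ 𝒰, ∀ x ∈ U, ∀ y ∈ U, dist x y ≤ D) ∧
      (∀ U ∈ 𝒰, ∀ V ∈ 𝒰, U ≠ V → c U = c V → ∀ x ∈ U, ∀ y ∈ V, R ≤ dist x y) := by
  classical
  let cls : X → Set X := fun x => {y | ReflTransGen (Lnk col R) x y}
  have hcls : ∀ x y, ReflTransGen (Lnk col R) x y → cls x = cls y := by
    intro x y hxy
    ext z
    exact ⟨fun hz => (chain_symm hxy).trans hz, fun hz => hxy.trans hz⟩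
  let c : Set X → Fin 3 := fun U => if hU : U.Nonempty then col hU.choose else 0
  have hc : ∀ x y, y ∈ cls x → c (cls x) = col y := by
    intro x y hy
    have hne : (cls x).Nonempty := ⟨y, hy⟩
    have h1 : c (cls x) = col hne.choose := dif_pos hne
    have h2 := chain_col (hne.choose_spec : ReflTransGen (Lnk col R) x hne.choose)
    have h3 := chain_col (hy : ReflTransGen (Lnk col R) x y)
    rw [h1, ← h2, h3]
  refine ⟨Set.range cls, c, fun x => ⟨cls x, ⟨x, rfl⟩, ReflTransGen.refl⟩, ?_, ?_⟩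
  · rintro U ⟨x0, rfl⟩ x hx y hy
    exact h x y ((chain_symm hx).trans hy)
  · rintro U ⟨x0, rfl⟩ V ⟨y0, rfl⟩ hne hcc x hx y hy
    by_contra hlt
    push Not at hlt
    apply hne
    rw [hc x0 x hx, hc y0 y hy] at hcc
    have h1 : cls x = cls y := hcls x y (ReflTransGen.single ⟨hlt, hcc⟩)
    rw [hcls x0 x hx, hcls y0 y hy, h1]

/-- the colour of a pair of block numbers -/
def colr (a b : ℕ) : Fin 3 :=
  if a % 6 < 4 ∧ b % 6 < 4 then 0
  else if (a + 3) % 6 < 4 ∧ (b + 3) % 6 < 4 then 2 else 1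

/-- same colour and adjacent blocks: same big block -/
lemma colr_step {a b a' b' : ℕ} (h1 : a ≤ a' + 1) (h2 : a' ≤ a + 1) (h3 : b ≤ b' + 1)
    (h4 : b' ≤ b + 1) (h : colr a b = colr a' b') :
    (colr a b = 2 → (a + 3) / 6 = (a' + 3) / 6 ∧ (b + 3) / 6 = (b' + 3) / 6) ∧
    (colr a b ≠ 2 → a / 6 = a' / 6 ∧ b / 6 = b' / 6) := by
  unfold colr at h ⊢
  split_ifs at h ⊢ <;> simp_all <;> omega

lemma div_le_of_le {S t t' : ℕ} (hS : 0 < S) (h : t ≤ t' + S) : t / S ≤ t' / S + 1 := by
  rw [← Nat.add_div_right _ hS]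
  exact Nat.div_le_div_right h

lemma le_of_div {S t t' k : ℕ} (hS : 0 < S) (h : t / S ≤ t' / S + k) : t ≤ t' + (k + 1) * S := by
  have h1 : t < (t / S + 1) * S := by
    have := Nat.lt_mul_div_succ t hS
    nlinarith
  have h2 : t' / S * S ≤ t' := Nat.div_mul_le_self t' S
  nlinarith

namespace Front

variable {V : Type*} {Γ : SimpleGraph V} {p : V}

lemma level_dist (F : Front Γ p) (v w : V) : Γ.dist p v ≤ Γ.dist p w + Γ.dist v w := by
  have h3 : Γ.dist p v ≤ Γ.dist p w + Γ.dist w v := F.conn.dist_triangle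
  rw [SimpleGraph.dist_comm (u := w) (v := v)] at h3
  exact h3

/-- geodesic paths stay in a box -/
lemma path_box (F : Front Γ p) : ∀ (n : ℕ) (u w : V), Γ.dist u w ≤ n → ∀ P : V → Prop,
    (∀ z, Γ.dist p z ≤ Γ.dist p u + n → Γ.dist p u ≤ Γ.dist p z + n →
      Ec Γ p z ≤ Ec Γ p u + n → Ec Γ p u ≤ Ec Γ p z + n → P z) →
    ReflTransGen (fun a b => Γ.Adj a b ∧ P b) u w := by
  intro n
  induction n with
  | zero =>
    intro u w h P _
    have : u = w := by
      have h0 : Γ.dist u w = 0 := by omega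
      exact (F.conn.dist_eq_zero_iff).mp h0
    subst this
    exact ReflTransGen.refl
  | succ n ih =>
    intro u w h P hP
    obtain ⟨q, hq⟩ := F.conn.exists_walk_length_eq_dist u w
    cases q with
    | nil => exact ReflTransGen.refl
    | @cons _ a _ hadj q' =>
      have h1 : Γ.dist a w ≤ q'.length := SimpleGraph.dist_le q'
      have h2 : q'.length + 1 = Γ.dist u w := by simpa using hq
      have l1 := F.level_adj hadj
      have l2 := F.level_adj hadj.symm
      have e1 := F.E_adj hadj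
      have e2 := F.E_adj hadj.symm
      refine ReflTransGen.head ⟨hadj, hP a (by omega) (by omega) (by omega) (by omega)⟩ ?_
      refine ih a w (by omega) P ?_
      intro z g1 g2 g3 g4
      exact hP z (by omega) (by omega) (by omega) (by omega)

lemma E_dist (F : Front Γ p) : ∀ (n : ℕ) (u w : V), Γ.dist u w ≤ n →
    Ec Γ p u ≤ Ec Γ p w + n := by
  intro n
  induction n with
  | zero =>
    intro u w h
    have : u = w := by
      have h0 : Γ.dist u w = 0 := by omega
      exact (F.conn.dist_eq_zero_iff).mp h0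
    subst this
    omega
  | succ n ih =>
    intro u w h
    obtain ⟨q, hq⟩ := F.conn.exists_walk_length_eq_dist u w
    cases q with
    | nil => omega
    | @cons _ a _ hadj q' =>
      have h1 : Γ.dist a w ≤ q'.length := SimpleGraph.dist_le q'
      have h2 : q'.length + 1 = Γ.dist u w := by simpa using hq
      have e1 := F.E_adj hadj
      have := ih a w (by omega)
      omega

/-- **Coloured covers from a front.** -/
theorem cover {X : Type*} [PseudoMetricSpace X] (F : Front Γ p) (ν : X → V) (R K : ℝ) (T : ℕ)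
    (hT : ∀ x y, dist x y < R → Γ.dist (ν x) (ν y) ≤ T)
    (hK : ∀ x y, dist x y ≤ Γ.dist (ν x) (ν y) + K) :
    ∃ (𝒰 : Set (Set X)) (c : Set X → Fin 3),
      (∀ x : X, ∃ U ∈ 𝒰, x ∈ U) ∧
      (∀ U ∈ 𝒰, ∀ x ∈ U, ∀ y ∈ U, dist x y ≤ 140 * (T + 1) + 4 + K) ∧
      (∀ U ∈ 𝒰, ∀ V ∈ 𝒰, U ≠ V → c U = c V → ∀ x ∈ U, ∀ y ∈ V, R ≤ dist x y) := by
  obtain ⟨S, hS⟩ : ∃ S, S = T + 1 := ⟨_, rfl⟩
  have hS0 : 0 < S := by omega
  let A : X → ℕ := fun x => Γ.dist p (ν x) / S
  let B : X → ℕ := fun x => Ec Γ p (ν x) / S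
  let col : X → Fin 3 := fun x => colr (A x) (B x)
  apply cover_of_col col
  -- blocks of close points
  have hA : ∀ x y, dist x y < R → A x ≤ A y + 1 := by
    intro x y hxy
    apply div_le_of_le hS0
    have := F.level_dist (ν x) (ν y)
    have := hT x y hxy
    omega
  have hB : ∀ x y, dist x y < R → B x ≤ B y + 1 := by
    intro x y hxy
    apply div_le_of_le hS0
    have := F.E_dist T (ν x) (ν y) (hT x y hxy)
    omega
  -- index constant along chains
  have hidx : ∀ x y, ReflTransGen (Lnk col R) x y →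
      (A x ≤ A y + 5 ∧ A y ≤ A x + 5 ∧ B x ≤ B y + 5 ∧ B y ≤ B x + 5) := by
    intro x y hxy
    have key : (col x = 2 → (A x + 3) / 6 = (A y + 3) / 6 ∧ (B x + 3) / 6 = (B y + 3) / 6) ∧
        (col x ≠ 2 → A x / 6 = A y / 6 ∧ B x / 6 = B y / 6) := by
      induction hxy with
      | refl => exact ⟨fun _ => ⟨rfl, rfl⟩, fun _ => ⟨rfl, rfl⟩⟩
      | @tail y z hxy hyz ih =>
        have hc : col x = col y := chain_col hxy
        have hyz' : dist z y < R := by rw [dist_comm]; exact hyz.1
        have hs := colr_step (hA y z hyz.1) (hA z y hyz') (hB y z hyz.1) (hB z y hyz') hyz.2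
        constructor
        · intro h2
          have h3 := ih.1 h2
          have h4 := hs.1 (hc.symm.trans h2)
          exact ⟨h3.1.trans h4.1, h3.2.trans h4.2⟩
        · intro h2
          have h3 := ih.2 h2
          have h4 := hs.2 (fun h => h2 (hc.trans h))
          exact ⟨h3.1.trans h4.1, h3.2.trans h4.2⟩
    by_cases h2 : col x = 2
    · have := key.1 h2
      omega
    · have := key.2 h2
      omega
  intro x y hxy
  have hbig : Γ.dist (ν x) (ν y) ≤ 6 * (14 * S) + 4 * (14 * S + 1) := by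
    refine F.box_dist (m := Γ.dist p (ν x) - 7 * S) (L := Ec Γ p (ν x) - 7 * S)
      ⟨by omega, by omega, by omega, by omega⟩ ?_
    induction hxy with
    | refl => exact ReflTransGen.refl
    | @tail y z hxy hyz ih =>
      refine ih.trans ?_
      obtain ⟨i1, i2, i3, i4⟩ := hidx x y hxy
      have j1 := le_of_div hS0 i1
      have j2 := le_of_div hS0 i2
      have j3 := le_of_div hS0 i3
      have j4 := le_of_div hS0 i4
      refine F.path_box T (ν y) (ν z) (hT y z hyz.1) _ ?_
      intro w g1 g2 g3 g4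
      refine ⟨by omega, by omega, by omega, by omega⟩
  have h1 := hK x y
  have h2 : ((Γ.dist (ν x) (ν y) : ℕ) : ℝ) ≤ ((6 * (14 * S) + 4 * (14 * S + 1) : ℕ) : ℝ) := by
    exact_mod_cast hbig
  subst hS
  push_cast at h2
  linarith

end Front

end Helper75tri
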