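import Mathlib
import Pool.Agent.Helper75_tri.Cat

/-!
Two-dimensional complexes of unit equilateral triangles: basic facts.
-/

namespace Helper75tri

open Finset

/-- `X` is (the geometric realisation of) the two-dimensional simplicial complex whose simplices are
the finite cliques of the graph `Γ`, each triangle being a Euclidean equilateral triangle of side
one, with the induced length metric. The point `x` has barycentric coordinates `β x v`. -/
structure TriComplex {X V : Type*} [MetricSpace X] (Γ : SimpleGraph V) (β : X → V → ℝ) :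
    Prop where
  /-- there are no simplices with four vertices -/
  free : Γ.CliqueFree 4
  /-- the coordinates are those of a point of a simplex -/
  coords : ∀ x, ∃ s : Finset V, Γ.IsClique (s : Set V) ∧ (∀ v, 0 ≤ β x v) ∧
    (∀ v, v ∉ s → β x v = 0) ∧ ∑ v ∈ s, β x v = 1
  /-- every point of every simplex occurs -/
  realise : ∀ (s : Finset V) (w : V → ℝ), Γ.IsClique (s : Set V) → (∀ v, 0 ≤ w v) →
    (∀ v, v ∉ s → w v = 0) → ∑ v ∈ s, w v = 1 → ∃ x, β x = w
  /-- the metric on a closed simplex is that of a regular simplex of side one -/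
  metric : ∀ (s : Finset V) (x y : X), Γ.IsClique (s : Set V) → (∀ v, v ∉ s → β x v = 0) →
    (∀ v, v ∉ s → β y v = 0) → dist x y ^ 2 = (∑ v ∈ s, (β x v - β y v) ^ 2) / 2
  /-- the metric is the length metric of the complex -/
  length : ∀ (x y : X) (ε : ℝ), 0 < ε → ∃ (n : ℕ) (z : ℕ → X), z 0 = x ∧ z n = y ∧
    (∀ i < n, ∃ s : Finset V, Γ.IsClique (s : Set V) ∧
      ∀ v, v ∉ s → β (z i) v = 0 ∧ β (z (i + 1)) v = 0) ∧
    ∑ i ∈ range n, dist (z i) (z (i + 1)) < dist x y + ε

/-- `x` lies in the closed simplex `s` -/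
def Ins {X V : Type*} (β : X → V → ℝ) (s : Finset V) (x : X) : Prop := ∀ v, v ∉ s → β x v = 0

namespace TriComplex

variable {X V : Type*} [MetricSpace X] {Γ : SimpleGraph V} {β : X → V → ℝ}

lemma nonneg (T : TriComplex Γ β) (x : X) (v : V) : 0 ≤ β x v := by
  obtain ⟨s, -, h, -⟩ := T.coords x
  exact h v

open Classical in
lemma sum_in (T : TriComplex Γ β) {s : Finset V} {x : X} (h : Ins β s x) :
    ∑ v ∈ s, β x v = 1 := by
  obtain ⟨t, -, -, ht, hsum⟩ := T.coords x
  have h1 : ∑ v ∈ s, β x v = ∑ v ∈ s ∪ t, β x v :=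
    Finset.sum_subset Finset.subset_union_left (fun v _ hv => h v hv)
  have h2 : ∑ v ∈ t, β x v = ∑ v ∈ s ∪ t, β x v :=
    Finset.sum_subset Finset.subset_union_right (fun v _ hv => ht v hv)
  rw [h1, ← h2, hsum]

lemma card_le (T : TriComplex Γ β) {s : Finset V} (h : Γ.IsClique (s : Set V)) :
    s.card ≤ 3 := by
  by_contra hc
  push Not at hc
  obtain ⟨t, hts, ht⟩ := Finset.exists_subset_card_eq (show 4 ≤ s.card by omega)
  exact T.free t ⟨h.subset (by exact_mod_cast hts), ht⟩

lemma k4 (T : TriComplex Γ β) (a b c d : V) (h1 : Γ.Adj a b) (h2 : Γ.Adj a c) (h3 : Γ.Adj a d)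
    (h4 : Γ.Adj b c) (h5 : Γ.Adj b d) (h6 : Γ.Adj c d) : False := by
  classical
  have hc : Γ.IsClique (({a, b, c, d} : Finset V) : Set V) := by
    simp only [Finset.coe_insert, Finset.coe_singleton, SimpleGraph.isClique_insert,
      SimpleGraph.isClique_singleton]
    simp [h1, h2, h3, h4, h5, h6]
  have h := T.card_le hc
  have hcard : ({a, b, c, d} : Finset V).card = 4 := by
    rw [Finset.card_insert_of_notMem, Finset.card_insert_of_notMem, Finset.card_insert_of_notMem,
      Finset.card_singleton]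
    · simp [h6.ne]
    · simp [h4.ne, h5.ne]
    · simp [h1.ne, h2.ne, h3.ne]
  omega

lemma ext_pt (T : TriComplex Γ β) {x y : X} (h : β x = β y) : x = y := by
  obtain ⟨s, hs, -, hx, -⟩ := T.coords x
  have h1 := T.metric s x y hs hx (by rw [← h]; exact hx)
  have h2 : ∑ v ∈ s, (β x v - β y v) ^ 2 = 0 := by
    apply Finset.sum_eq_zero
    intro v _
    rw [h]
    ring
  rw [h2] at h1
  have h3 : dist x y = 0 := by
    have : dist x y ^ 2 = 0 := by linarith
    exact pow_eq_zero_iff two_ne_zero |>.1 this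
  exact dist_eq_zero.1 h3

/-- Lipschitz on every closed simplex, with constant `2 / √3` -/
def SLip (Γ : SimpleGraph V) (β : X → V → ℝ) (F : X → ℝ) : Prop :=
  ∀ s : Finset V, Γ.IsClique (s : Set V) → ∀ x y : X, Ins β s x → Ins β s y →
    (F x - F y) ^ 2 ≤ 4 / 3 * dist x y ^ 2

/-- a function which is Lipschitz on closed simplices is Lipschitz -/
lemma lip_of (T : TriComplex Γ β) {F : X → ℝ} (hF : SLip Γ β F) (x y : X) :
    (F x - F y) ^ 2 ≤ 4 / 3 * dist x y ^ 2 := by
  have hK0 : (0 : ℝ) ≤ √(4 / 3) := Real.sqrt_nonneg _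
  have hK : √(4 / 3 : ℝ) ^ 2 = 4 / 3 := Real.sq_sqrt (by norm_num)
  have hloc : ∀ s : Finset V, Γ.IsClique (s : Set V) → ∀ x y : X, Ins β s x → Ins β s y →
      |F x - F y| ≤ √(4 / 3) * dist x y := by
    intro s hs x y hx hy
    refine le_of_sq (by positivity) ?_
    rw [sq_abs, mul_pow, hK]
    exact hF s hs x y hx hy
  have hmain : |F x - F y| ≤ √(4 / 3) * dist x y := by
    refine le_of_forall_pos_le_add fun ε hε => ?_
    obtain ⟨n, z, h0, hn, hz, hsum⟩ := T.length x y (ε / (√(4 / 3) + 1)) (by positivity)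
    have h1 : ∀ m ≤ n, |F (z 0) - F (z m)| ≤
        √(4 / 3) * ∑ i ∈ range m, dist (z i) (z (i + 1)) := by
      intro m
      induction m with
      | zero => intro _; simp
      | succ m ih =>
        intro hm
        rw [Finset.sum_range_succ, mul_add]
        have e1 := ih (by omega)
        obtain ⟨s, hs, hv⟩ := hz m (by omega)
        have e2 := hloc s hs (z m) (z (m + 1)) (fun v hvs => (hv v hvs).1)
          (fun v hvs => (hv v hvs).2)
        calc |F (z 0) - F (z (m + 1))| ≤ |F (z 0) - F (z m)| + |F (z m) - F (z (m + 1))| :=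
              abs_sub_le _ _ _
          _ ≤ _ := add_le_add e1 e2
    have h2 := h1 n le_rfl
    rw [h0, hn] at h2
    have h3 : √(4 / 3) * ∑ i ∈ range n, dist (z i) (z (i + 1)) ≤
        √(4 / 3) * (dist x y + ε / (√(4 / 3) + 1)) :=
      mul_le_mul_of_nonneg_left hsum.le hK0
    have h4 : √(4 / 3) * (ε / (√(4 / 3) + 1)) ≤ ε := by
      rw [mul_div_assoc', div_le_iff₀ (by positivity)]
      nlinarith
    rw [mul_add] at h3
    linarith
  calc (F x - F y) ^ 2 = |F x - F y| ^ 2 := (sq_abs _).symm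
    _ ≤ (√(4 / 3) * dist x y) ^ 2 := pow_le_pow_left₀ (abs_nonneg _) hmain 2
    _ = _ := by rw [mul_pow, hK]

/-- the set of vertices with nonzero coordinate -/
noncomputable def sp (β : X → V → ℝ) (x : X) : Finset V :=
  open Classical in
  if h : (Function.support (β x)).Finite then h.toFinset else ∅

lemma mem_sp (T : TriComplex Γ β) {x : X} {v : V} : v ∈ sp β x ↔ β x v ≠ 0 := by
  have h : (Function.support (β x)).Finite := by
    obtain ⟨s, -, -, hx, -⟩ := T.coords x
    refine s.finite_toSet.subset ?_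
    intro v hv
    by_contra hvs
    exact hv (hx v hvs)
  unfold sp
  rw [dif_pos h]
  simp

lemma sp_in (T : TriComplex Γ β) (x : X) : Ins β (sp β x) x := by
  intro v hv
  by_contra h
  exact hv (T.mem_sp.2 h)

lemma sp_sub (T : TriComplex Γ β) {x : X} {s : Finset V} (h : Ins β s x) : sp β x ⊆ s := by
  intro v hv
  by_contra hvs
  exact T.mem_sp.1 hv (h v hvs)

lemma sp_clique (T : TriComplex Γ β) (x : X) : Γ.IsClique ((sp β x : Finset V) : Set V) := by
  obtain ⟨s, hs, -, hx, -⟩ := T.coords x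
  refine hs.subset ?_
  exact_mod_cast T.sp_sub hx

lemma sp_pos (T : TriComplex Γ β) {x : X} {v : V} (hv : v ∈ sp β x) : 0 < β x v :=
  lt_of_le_of_ne (T.nonneg x v) (Ne.symm (T.mem_sp.1 hv))

open Classical in
/-- total weight of a set of vertices -/
noncomputable def wt (β : X → V → ℝ) (S : Set V) (x : X) : ℝ :=
  ∑ v ∈ sp β x, if v ∈ S then β x v else 0

open Classical in
lemma wt_eq (T : TriComplex Γ β) (S : Set V) {x : X} {s : Finset V} (h : Ins β s x) :
    wt β S x = ∑ v ∈ s, if v ∈ S then β x v else 0 := by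
  unfold wt
  apply Finset.sum_subset (T.sp_sub h)
  intro v _ hv
  have : β x v = 0 := T.sp_in x v hv
  simp [this]

lemma wt_nonneg (T : TriComplex Γ β) (S : Set V) (x : X) : 0 ≤ wt β S x := by
  classical
  unfold wt
  apply Finset.sum_nonneg
  intro v _
  split_ifs
  · exact T.nonneg x v
  · exact le_rfl

lemma wt_zero (_T : TriComplex Γ β) {S : Set V} {x : X} (h : ∀ v ∈ S, β x v = 0) :
    wt β S x = 0 := by
  classical
  unfold wt
  apply Finset.sum_eq_zero
  intro v _
  split_ifs with hv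
  · exact h v hv
  · rfl

lemma wt_one (T : TriComplex Γ β) {S : Set V} {x : X} (h : ∀ v, v ∉ S → β x v = 0) :
    wt β S x = 1 := by
  classical
  rw [← T.sum_in (T.sp_in x)]
  unfold wt
  apply Finset.sum_congr rfl
  intro v _
  split_ifs with hv
  · rfl
  · exact (h v hv).symm

lemma of_wt_zero (T : TriComplex Γ β) {S : Set V} {x : X} (h : wt β S x = 0) {v : V}
    (hv : v ∈ S) : β x v = 0 := by
  classical
  by_contra hne
  have hm := T.mem_sp.2 hne
  unfold wt at h
  rw [Finset.sum_eq_zero_iff_of_nonneg] at h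
  · have := h v hm
    rw [if_pos hv] at this
    exact hne this
  · intro w _
    split_ifs
    · exact T.nonneg x w
    · exact le_rfl

lemma wt_compl (T : TriComplex Γ β) (S : Set V) (x : X) : wt β S x + wt β Sᶜ x = 1 := by
  classical
  rw [← T.sum_in (T.sp_in x)]
  unfold wt
  rw [← Finset.sum_add_distrib]
  apply Finset.sum_congr rfl
  intro v _
  by_cases hv : v ∈ S <;> simp [hv]

lemma wt_single (T : TriComplex Γ β) (v : V) (x : X) : wt β {v} x = β x v := by
  classical
  by_cases hv : v ∈ sp β x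
  · unfold wt
    rw [Finset.sum_eq_single_of_mem v hv]
    · simp
    · intro w _ hw
      simp [hw]
  · have h0 : β x v = 0 := T.sp_in x v hv
    rw [h0]
    apply T.wt_zero
    intro w hw
    rw [Set.mem_singleton_iff.1 hw]
    exact h0

/-- weights are Lipschitz on simplices -/
lemma slip_wt (T : TriComplex Γ β) (S : Set V) : SLip Γ β (wt β S) := by
  classical
  intro s hs x y hx hy
  have hcard := T.card_le hs
  rw [T.metric s x y hs hx hy, T.wt_eq S hx, T.wt_eq S hy, ← Finset.sum_filter,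
    ← Finset.sum_filter, ← Finset.sum_sub_distrib]
  have h0 : ∑ v ∈ s, (β x v - β y v) = 0 := by
    rw [Finset.sum_sub_distrib, T.sum_in hx, T.sum_in hy]
    ring
  have h1 := Finset.sum_filter_add_sum_filter_not s (· ∈ S) (fun v => β x v - β y v)
  have h2 := Finset.sum_filter_add_sum_filter_not s (· ∈ S) (fun v => (β x v - β y v) ^ 2)
  have h3 := Finset.card_filter_add_card_filter_not (s := s) (· ∈ S)
  have c1 := sq_sum_le_card_mul_sum_sq (s := s.filter (· ∈ S)) (f := fun v => β x v - β y v)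
  have c2 := sq_sum_le_card_mul_sum_sq (s := s.filter (¬ · ∈ S)) (f := fun v => β x v - β y v)
  have n1 : 0 ≤ ∑ v ∈ s.filter (· ∈ S), (β x v - β y v) ^ 2 :=
    Finset.sum_nonneg fun _ _ => sq_nonneg _
  have n2 : 0 ≤ ∑ v ∈ s.filter (¬ · ∈ S), (β x v - β y v) ^ 2 :=
    Finset.sum_nonneg fun _ _ => sq_nonneg _
  rw [h0] at h1
  rw [← h2]
  set D := ∑ v ∈ s.filter (· ∈ S), (β x v - β y v) with hD
  set D' := ∑ v ∈ s.filter (¬ · ∈ S), (β x v - β y v) with hD'
  set A := ∑ v ∈ s.filter (· ∈ S), (β x v - β y v) ^ 2 with hA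
  set B := ∑ v ∈ s.filter (¬ · ∈ S), (β x v - β y v) ^ 2 with hB
  have hDD : D' = -D := by linarith
  rw [hDD, neg_sq] at c2
  obtain ⟨k, hk⟩ : ∃ k, (s.filter (· ∈ S)).card = k := ⟨_, rfl⟩
  obtain ⟨l, hl⟩ : ∃ l, (s.filter (¬ · ∈ S)).card = l := ⟨_, rfl⟩
  rw [hk] at c1 h3
  rw [hl] at c2 h3
  have hkl : k + l ≤ 3 := by omega
  have hk3 : k ≤ 3 := by omega
  interval_cases k
  · norm_num at c1
    have : D = 0 := by
      exact pow_eq_zero_iff two_ne_zero |>.1 (le_antisymm (by simpa using c1) (sq_nonneg D))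
    rw [this]
    nlinarith
  · have hl2 : (l : ℝ) ≤ 2 := by
      have : l ≤ 2 := by omega
      exact_mod_cast this
    have : D ^ 2 ≤ 2 * B := c2.trans (mul_le_mul_of_nonneg_right hl2 n2)
    norm_num at c1
    linarith
  · have hl2 : (l : ℝ) ≤ 1 := by
      have : l ≤ 1 := by omega
      exact_mod_cast this
    have : D ^ 2 ≤ 1 * B := c2.trans (mul_le_mul_of_nonneg_right hl2 n2)
    norm_num at c1
    linarith
  · have hl0 : l = 0 := by omega
    rw [hl0] at c2
    norm_num at c2
    have : D = 0 := by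
      exact pow_eq_zero_iff two_ne_zero |>.1 (le_antisymm (by simpa using c2) (sq_nonneg D))
    rw [this]
    nlinarith

lemma lip_wt (T : TriComplex Γ β) (S : Set V) (x y : X) :
    (wt β S x - wt β S y) ^ 2 ≤ 4 / 3 * dist x y ^ 2 := T.lip_of (T.slip_wt S) x y

lemma lip_coord (T : TriComplex Γ β) (v : V) (x y : X) :
    (β x v - β y v) ^ 2 ≤ 4 / 3 * dist x y ^ 2 := by
  have := T.lip_wt {v} x y
  rwa [T.wt_single, T.wt_single] at this

end TriComplex

end Helper75tri
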