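import Mathlib
import Pool.Agent.Helper75_tri.Geom

/-!
Vertices, segments inside simplices, links.
-/

namespace Helper75tri

open Finset

namespace TriComplex

variable {X V : Type*} [MetricSpace X] {Γ : SimpleGraph V} {β : X → V → ℝ}

lemma exists_pt (T : TriComplex Γ β) (v : V) : ∃ x : X, β x v = 1 ∧ ∀ w, w ≠ v → β x w = 0 := by
  classical
  obtain ⟨x, hx⟩ := T.realise {v} (fun w => if w = v then 1 else 0) (by simp)
    (fun w => by split_ifs <;> norm_num) (fun w hw => by simpa using hw) (by simp)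
  refine ⟨x, by rw [hx]; simp, fun w hw => by rw [hx]; simp [hw]⟩

/-- the point of `X` which is the vertex `v` -/
noncomputable def pt (T : TriComplex Γ β) (v : V) : X := (T.exists_pt v).choose

lemma pt_self (T : TriComplex Γ β) (v : V) : β (T.pt v) v = 1 := (T.exists_pt v).choose_spec.1

lemma pt_ne (T : TriComplex Γ β) {v w : V} (h : w ≠ v) : β (T.pt v) w = 0 :=
  (T.exists_pt v).choose_spec.2 w h

lemma pt_in (T : TriComplex Γ β) {v : V} {s : Finset V} (h : v ∈ s) : Ins β s (T.pt v) := by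
  intro w hw
  apply T.pt_ne
  rintro rfl
  exact hw h

lemma clique_pair {v w : V} [DecidableEq V] (h : Γ.Adj v w) :
    Γ.IsClique (({v, w} : Finset V) : Set V) := by
  simp only [Finset.coe_insert, Finset.coe_singleton, SimpleGraph.isClique_insert,
    SimpleGraph.isClique_singleton]
  simp [h]

lemma clique_triple {u v w : V} [DecidableEq V] (h1 : Γ.Adj u v) (h2 : Γ.Adj u w)
    (h3 : Γ.Adj v w) : Γ.IsClique (({u, v, w} : Finset V) : Set V) := by
  simp only [Finset.coe_insert, Finset.coe_singleton, SimpleGraph.isClique_insert,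
    SimpleGraph.isClique_singleton]
  simp [h1, h2, h3]

/-- the distance to a vertex of the simplex is at most one minus the weight of the vertex -/
lemma dist_pt_le (T : TriComplex Γ β) {s : Finset V} (hs : Γ.IsClique (s : Set V)) {x : X}
    (hx : Ins β s x) {v : V} (hv : v ∈ s) : dist x (T.pt v) ≤ 1 - β x v := by
  classical
  have hsum := T.sum_in hx
  rw [← Finset.add_sum_erase s _ hv] at hsum
  have hnn : 0 ≤ ∑ w ∈ s.erase v, β x w := Finset.sum_nonneg fun w _ => T.nonneg x w
  refine le_of_sq (by linarith) ?_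
  rw [T.metric s x (T.pt v) hs hx (T.pt_in hv), ← Finset.add_sum_erase s _ hv, T.pt_self]
  have h1 : ∑ w ∈ s.erase v, (β x w - β (T.pt v) w) ^ 2 = ∑ w ∈ s.erase v, β x w ^ 2 := by
    apply Finset.sum_congr rfl
    intro w hw
    rw [T.pt_ne (Finset.ne_of_mem_erase hw), sub_zero]
  have h2 : ∑ w ∈ s.erase v, β x w ^ 2 ≤ (∑ w ∈ s.erase v, β x w) ^ 2 :=
    Finset.sum_sq_le_sq_sum_of_nonneg fun w _ => T.nonneg x w
  have h3 : ∑ w ∈ s.erase v, β x w = 1 - β x v := by linarith
  rw [h3] at h2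
  rw [h1]
  nlinarith

lemma dist_adj (T : TriComplex Γ β) {v w : V} (h : Γ.Adj v w) : dist (T.pt v) (T.pt w) = 1 := by
  classical
  have h1 := T.metric {v, w} (T.pt v) (T.pt w) (clique_pair h) (T.pt_in (by simp))
    (T.pt_in (by simp))
  rw [Finset.sum_pair h.ne, T.pt_self, T.pt_self, T.pt_ne h.ne, T.pt_ne h.ne.symm] at h1
  have h2 : dist (T.pt v) (T.pt w) ^ 2 = 1 := by rw [h1]; norm_num
  have h3 : (0 : ℝ) ≤ dist (T.pt v) (T.pt w) := dist_nonneg
  nlinarith

lemma dist_nonadj (T : TriComplex Γ β) {v w : V} (hne : v ≠ w) (h : ¬ Γ.Adj v w) :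
    3 ≤ dist (T.pt v) (T.pt w) ^ 2 := by
  classical
  have hS : SLip Γ β (fun x => β x v - β x w) := by
    intro s hs x y hx hy
    by_cases hv : v ∈ s
    · have hw : w ∉ s := fun hw => h (hs hv hw hne)
      have := T.slip_wt {v} s hs x y hx hy
      rw [T.wt_single, T.wt_single] at this
      simpa [hx w hw, hy w hw] using this
    · have := T.slip_wt {w} s hs x y hx hy
      rw [T.wt_single, T.wt_single] at this
      simp only [hx v hv, hy v hv]
      linarith [this, show (0 - β x w - (0 - β y w)) ^ 2 = (β x w - β y w) ^ 2 by ring]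
  have h1 := T.lip_of hS (T.pt v) (T.pt w)
  simp only [T.pt_self, T.pt_ne hne, T.pt_ne hne.symm] at h1
  norm_num at h1
  linarith

/-- affine combinations inside a closed simplex -/
lemma exists_comb (T : TriComplex Γ β) {s : Finset V} (hs : Γ.IsClique (s : Set V)) {x y : X}
    (hx : Ins β s x) (hy : Ins β s y) {l : ℝ} (h0 : 0 ≤ l) (h1 : l ≤ 1) :
    ∃ z, ∀ v, β z v = (1 - l) * β x v + l * β y v := by
  obtain ⟨z, hz⟩ := T.realise s (fun v => (1 - l) * β x v + l * β y v) hs
    (fun v => add_nonneg (mul_nonneg (by linarith) (T.nonneg x v)) (mul_nonneg h0 (T.nonneg y v)))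
    (fun v hv => by rw [hx v hv, hy v hv]; ring)
    (by rw [Finset.sum_add_distrib, ← Finset.mul_sum, ← Finset.mul_sum, T.sum_in hx, T.sum_in hy]
        ring)
  exact ⟨z, fun v => by rw [hz]⟩

lemma comb_dist (T : TriComplex Γ β) {s : Finset V} (hs : Γ.IsClique (s : Set V)) {x y z : X}
    (hx : Ins β s x) (hy : Ins β s y) {l : ℝ} (h0 : 0 ≤ l) (h1 : l ≤ 1)
    (hz : ∀ v, β z v = (1 - l) * β x v + l * β y v) :
    dist x z = l * dist x y ∧ dist z y = (1 - l) * dist x y := by
  have hzs : Ins β s z := fun v hv => by rw [hz, hx v hv, hy v hv]; ring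
  have e1 : dist x z ^ 2 = (l * dist x y) ^ 2 := by
    rw [T.metric s x z hs hx hzs, mul_pow, T.metric s x y hs hx hy, mul_div_assoc',
      Finset.mul_sum]
    congr 1
    apply Finset.sum_congr rfl
    intro v _
    rw [hz]
    ring
  have e2 : dist z y ^ 2 = ((1 - l) * dist x y) ^ 2 := by
    rw [T.metric s z y hs hzs hy, mul_pow, T.metric s x y hs hx hy, mul_div_assoc',
      Finset.mul_sum]
    congr 1
    apply Finset.sum_congr rfl
    intro v _
    rw [hz]
    ring
  exact ⟨(pow_left_inj₀ dist_nonneg (mul_nonneg h0 dist_nonneg) two_ne_zero).1 e1,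
    (pow_left_inj₀ dist_nonneg (mul_nonneg (by linarith) dist_nonneg) two_ne_zero).1 e2⟩

/-- dividing points of points of a simplex are affine combinations -/
lemma dv_coord (T : TriComplex Γ β) {s : Finset V}
    (hs : Γ.IsClique (s : Set V)) {x y z : X} (hx : Ins β s x) (hy : Ins β s y) {l : ℝ}
    (h0 : 0 ≤ l) (h1 : l ≤ 1) (h : Dv x y l z) :
    ∀ v, β z v = (1 - l) * β x v + l * β y v := by
  obtain ⟨z', hz'⟩ := T.exists_comb hs hx hy h0 h1
  obtain ⟨e1, e2⟩ := T.comb_dist hs hx hy h0 h1 hz'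
  have := h.uniq h0 h1 e1.le e2.le
  rw [← this]
  exact hz'

/-- no square in a link -/
lemma L4 [CompleteSpace X] (T : TriComplex Γ β) (hX : CN X) {a b c d : V}
    (hab : Γ.Adj a b) (hbc : Γ.Adj b c) (hcd : Γ.Adj c d) (hda : Γ.Adj d a)
    (hac : a ≠ c) (hbd : b ≠ d) : Γ.Adj a c ∨ Γ.Adj b d := by
  by_contra hcon
  push Not at hcon
  have h1 := T.dist_nonadj hac hcon.1
  have h2 := T.dist_nonadj hbd hcon.2
  obtain ⟨m, hm⟩ := dv_exists hX (T.pt a) (T.pt c) (1 / 2) (by norm_num) (by norm_num)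
  obtain ⟨n, hn⟩ := dv_exists hX (T.pt b) (T.pt d) (1 / 2) (by norm_num) (by norm_num)
  have h3 := quad hm hn
  rw [T.dist_adj hab, T.dist_adj hbc, T.dist_adj hcd, T.dist_adj hda] at h3
  have := sq_nonneg (dist m n)
  linarith

/-- no closed walk of length five in a link -/
lemma L5 [CompleteSpace X] (T : TriComplex Γ β) (hX : CN X) (v a b c d e : V)
    (va : Γ.Adj v a) (vb : Γ.Adj v b) (vc : Γ.Adj v c) (vd : Γ.Adj v d) (ve : Γ.Adj v e)
    (ab : Γ.Adj a b) (bc : Γ.Adj b c) (cd : Γ.Adj c d) (de : Γ.Adj d e) (ea : Γ.Adj e a) :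
    False := by
  classical
  -- the distinctness of the five vertices
  have hac : a ≠ c := by
    rintro rfl
    exact T.k4 v a d e va vd ve cd ea.symm de
  have hbd : b ≠ d := by
    rintro rfl
    exact T.k4 v b e a vb ve va de ab.symm ea
  have nac : ¬ Γ.Adj a c := fun h => T.k4 v a b c va vb vc ab h bc
  have nbd : ¬ Γ.Adj b d := fun h => T.k4 v b c d vb vc vd bc h cd
  have h1 := T.dist_nonadj hac nac
  have h2 := T.dist_nonadj hbd nbd
  obtain ⟨m, hm⟩ := dv_exists hX (T.pt a) (T.pt c) (1 / 2) (by norm_num) (by norm_num)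
  obtain ⟨n, hn⟩ := dv_exists hX (T.pt b) (T.pt d) (1 / 2) (by norm_num) (by norm_num)
  -- the distance from d to a
  have h3 : dist (T.pt d) (T.pt a) ^ 2 ≤ 3 := by
    obtain ⟨q, hq⟩ := dv_exists hX (T.pt v) (T.pt e) (1 / 2) (by norm_num) (by norm_num)
    have e1 := hq (T.pt d)
    have e2 := hq (T.pt a)
    rw [T.dist_adj vd.symm, T.dist_adj de, T.dist_adj ve] at e1
    rw [T.dist_adj va.symm, T.dist_adj ea.symm, T.dist_adj ve] at e2
    have e3 := dist_triangle (T.pt d) q (T.pt a)
    rw [dist_comm q] at e3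
    have e4 : (0 : ℝ) ≤ dist (T.pt d) (T.pt a) := dist_nonneg
    nlinarith [sq_nonneg (dist (T.pt d) q - dist (T.pt a) q)]
  have h4 := quad hm hn
  rw [T.dist_adj ab, T.dist_adj bc, T.dist_adj cd] at h4
  have h5 : dist m n = 0 := by
    have : dist m n ^ 2 ≤ 0 := by linarith
    exact pow_eq_zero_iff two_ne_zero |>.1 (le_antisymm this (sq_nonneg _))
  have hmn : m = n := dist_eq_zero.1 h5
  -- m is the midpoint of v and b
  obtain ⟨m', hm'⟩ := dv_exists hX (T.pt v) (T.pt b) (1 / 2) (by norm_num) (by norm_num)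
  obtain ⟨n', hn'⟩ := dv_exists hX (T.pt v) (T.pt c) (1 / 2) (by norm_num) (by norm_num)
  have h6 := quad hm' hm
  rw [T.dist_adj va, T.dist_adj ab, T.dist_adj bc, T.dist_adj vb] at h6
  have vc' := T.dist_adj vc.symm
  rw [vc'] at h6
  have h7 := quad hn' hn
  rw [T.dist_adj vb, T.dist_adj bc, T.dist_adj cd, T.dist_adj vc, T.dist_adj vd.symm] at h7
  have h8 : dist m' m = 0 := by
    have : dist m' m ^ 2 ≤ 0 := by linarith
    exact pow_eq_zero_iff two_ne_zero |>.1 (le_antisymm this (sq_nonneg _))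
  have h9 : dist n' n = 0 := by
    have : dist n' n ^ 2 ≤ 0 := by linarith
    exact pow_eq_zero_iff two_ne_zero |>.1 (le_antisymm this (sq_nonneg _))
  have hm'n' : m' = n' := by
    rw [dist_eq_zero.1 h8, dist_eq_zero.1 h9, hmn]
  have hc := clique_triple vb vc bc
  have c1 := T.dv_coord hc (T.pt_in (by simp)) (T.pt_in (by simp)) (by norm_num)
    (by norm_num) hm' b
  have c2 := T.dv_coord hc (T.pt_in (by simp)) (T.pt_in (by simp)) (by norm_num)
    (by norm_num) hn' b
  rw [T.pt_self, T.pt_ne vb.ne.symm] at c1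
  rw [T.pt_ne vb.ne.symm, T.pt_ne bc.ne] at c2
  rw [hm'n', c2] at c1
  norm_num at c1

/-- the points all of whose vertices are in `S` -/
def KS (β : X → V → ℝ) (S : Set V) (x : X) : Prop := ∀ v, v ∉ S → β x v = 0

/-- `S` spans a convex subcomplex -/
def Conv (β : X → V → ℝ) (S : Set V) : Prop :=
  ∀ x y : X, KS β S x → KS β S y → ∀ l : ℝ, 0 ≤ l → l ≤ 1 → ∀ m, Dv x y l m → KS β S m

lemma pt_ks (T : TriComplex Γ β) {S : Set V} {v : V} (h : v ∈ S) : KS β S (T.pt v) := by
  intro w hw
  apply T.pt_ne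
  rintro rfl
  exact hw h

/-- two neighbours in a convex set of an outside vertex are adjacent -/
lemma Ga [CompleteSpace X] (T : TriComplex Γ β) (hX : CN X) {S : Set V} (hS : Conv β S)
    {v a b : V} (hv : v ∉ S) (ha : a ∈ S) (hb : b ∈ S) (va : Γ.Adj v a) (vb : Γ.Adj v b)
    (hab : a ≠ b) : Γ.Adj a b := by
  by_contra hcon
  have h1 := T.dist_nonadj hab hcon
  obtain ⟨m, hm⟩ := dv_exists hX (T.pt a) (T.pt b) (1 / 2) (by norm_num) (by norm_num)
  have h2 := hS _ _ (T.pt_ks ha) (T.pt_ks hb) (1 / 2) (by norm_num) (by norm_num) m hm v hv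
  have h3 := T.lip_coord v (T.pt v) m
  rw [T.pt_self, h2] at h3
  have h4 := hm (T.pt v)
  rw [T.dist_adj va, T.dist_adj vb] at h4
  linarith

/-- adjacent outside vertices with neighbours in a convex set have a common neighbour there -/
lemma Gb [CompleteSpace X] (T : TriComplex Γ β) (hX : CN X) {S : Set V} (hS : Conv β S)
    {v w a b : V} (hv : v ∉ S) (hw : w ∉ S) (vw : Γ.Adj v w) (ha : a ∈ S) (hb : b ∈ S)
    (va : Γ.Adj v a) (wb : Γ.Adj w b) : ∃ c ∈ S, Γ.Adj v c ∧ Γ.Adj w c := by
  classical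
  by_contra hcon
  push Not at hcon
  obtain ⟨m, hm⟩ := dv_exists hX (T.pt v) (T.pt w) (1 / 2) (by norm_num) (by norm_num)
  obtain ⟨m', hm'⟩ := dv_exists hX (T.pt a) (T.pt b) (1 / 2) (by norm_num) (by norm_num)
  have hmK := hS _ _ (T.pt_ks ha) (T.pt_ks hb) (1 / 2) (by norm_num) (by norm_num) m' hm'
  have hd := hm.convex hX hm' (by norm_num) (by norm_num)
  rw [T.dist_adj va, T.dist_adj wb] at hd
  -- the test function
  let U : Set V := {u | u = v ∨ u = w ∨ (Γ.Adj v u ∧ Γ.Adj w u)}
  have hU : SLip Γ β (fun x => wt β U x + min (β x v) (β x w)) := by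
    intro s hs x y hx hy
    by_cases hvw : v ∈ s ∧ w ∈ s
    · have hone : ∀ x, Ins β s x → wt β U x = 1 := by
        intro x hx
        apply T.wt_one
        intro u hu
        apply hx
        intro hus
        apply hu
        by_cases h1 : u = v
        · exact Or.inl h1
        by_cases h2 : u = w
        · exact Or.inr (Or.inl h2)
        exact Or.inr (Or.inr ⟨hs hvw.1 hus (Ne.symm h1), hs hvw.2 hus (Ne.symm h2)⟩)
      simp only [hone x hx, hone y hy]
      have e1 := T.slip_wt {v} s hs x y hx hy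
      have e2 := T.slip_wt {w} s hs x y hx hy
      rw [T.wt_single, T.wt_single] at e1 e2
      have e3 : |min (β x v) (β x w) - min (β y v) (β y w)| ≤
          max |β x v - β y v| |β x w - β y w| := abs_min_sub_min_le_max _ _ _ _
      have e4 : (1 + min (β x v) (β x w) - (1 + min (β y v) (β y w))) ^ 2 =
          |min (β x v) (β x w) - min (β y v) (β y w)| ^ 2 := by rw [sq_abs]; ring
      rw [e4]
      rcases max_choice |β x v - β y v| |β x w - β y w| with h | h
      · rw [h] at e3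
        calc _ ≤ |β x v - β y v| ^ 2 := pow_le_pow_left₀ (abs_nonneg _) e3 2
          _ = (β x v - β y v) ^ 2 := sq_abs _
          _ ≤ _ := e1
      · rw [h] at e3
        calc _ ≤ |β x w - β y w| ^ 2 := pow_le_pow_left₀ (abs_nonneg _) e3 2
          _ = (β x w - β y w) ^ 2 := sq_abs _
          _ ≤ _ := e2
    · have hzero : ∀ x, Ins β s x → min (β x v) (β x w) = 0 := by
        intro x hx
        by_cases h1 : v ∈ s
        · have h2 : w ∉ s := fun h => hvw ⟨h1, h⟩
          rw [hx w h2, min_eq_right (T.nonneg x v)]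
        · rw [hx v h1, min_eq_left (T.nonneg x w)]
      simp only [hzero x hx, hzero y hy, add_zero]
      exact T.slip_wt U s hs x y hx hy
  have h1 := T.lip_of hU m m'
  have hmv := T.dv_coord (clique_pair vw) (T.pt_in (by simp)) (T.pt_in (by simp))
    (by norm_num) (by norm_num) hm
  have e1 : β m v = 1 / 2 := by
    rw [hmv, T.pt_self, T.pt_ne vw.ne]; norm_num
  have e2 : β m w = 1 / 2 := by
    rw [hmv, T.pt_self, T.pt_ne vw.ne.symm]; norm_num
  have e3 : wt β U m = 1 := by
    apply T.wt_one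
    intro u hu
    have h1 : u ≠ v := fun h => hu (Or.inl h)
    have h2 : u ≠ w := fun h => hu (Or.inr (Or.inl h))
    rw [hmv, T.pt_ne h1, T.pt_ne h2]; norm_num
  have e4 : wt β U m' = 0 := by
    apply T.wt_zero
    intro u hu
    apply hmK
    intro huS
    rcases hu with rfl | rfl | ⟨h1, h2⟩
    · exact hv huS
    · exact hw huS
    · exact hcon u huS h1 h2
  have e5 : β m' v = 0 := hmK v hv
  have e6 : β m' w = 0 := hmK w hw
  simp only [e1, e2, e3, e4, e5, e6] at h1
  norm_num at h1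
  have h2 : dist m m' ≤ 1 := by linarith
  have h3 : (0 : ℝ) ≤ dist m m' := dist_nonneg
  nlinarith

end TriComplex

end Helper75tri
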