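import Mathlib
import Pool.Agent.Helper75_tri.Geom2

/-!
The neighbourhood of a convex subcomplex is convex.
-/

namespace Helper75tri

open Finset

lemma cross_real {aw au ax bw bu bx ew eu : ℝ} (sa : aw + au + ax = 1) (sb : bw + bu + bx = 1)
    (se : ew + eu = 1) (hC : (au - eu) - (aw - ew) + ((bu - eu) - (bw - ew)) = 0)
    (hd : (aw - ew) ^ 2 + (au - eu) ^ 2 + (ax - 0) ^ 2 =
      (ew - bw) ^ 2 + (eu - bu) ^ 2 + (0 - bx) ^ 2) (hax : 0 ≤ ax) (hbx : 0 ≤ bx) :
    ax = bx ∧ au + bu = 2 * eu - ax ∧ aw + bw = 2 * ew - ax := by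
  obtain ⟨A, hA⟩ : ∃ A, (au - eu) - (aw - ew) = A := ⟨_, rfl⟩
  have hB : (bu - eu) - (bw - ew) = -A := by linarith
  have e1 : au = eu + (A - ax) / 2 := by linarith
  have e2 : aw = ew + (-A - ax) / 2 := by linarith
  have e3 : bu = eu + (-A - bx) / 2 := by linarith
  have e4 : bw = ew + (A - bx) / 2 := by linarith
  have hxy : ax ^ 2 = bx ^ 2 := by
    rw [e1, e2, e3, e4] at hd
    nlinarith
  have hxy' : ax = bx := (pow_left_inj₀ hax hbx two_ne_zero).1 hxy
  refine ⟨hxy', ?_, ?_⟩ <;> linarith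

lemma vary_real {C ew eu : ℝ} (hw : 0 < ew) (hu : 0 < eu)
    (key : ∀ s : ℝ, 0 ≤ ew + s → 0 ≤ eu - s → 0 ≤ 4 * s ^ 2 + 2 * s * C) : C = 0 := by
  by_contra hC
  have hC0 : 0 < |C| := abs_pos.2 hC
  obtain ⟨μ, hμ0, hμw, hμu⟩ : ∃ μ : ℝ, 0 < μ ∧ μ ≤ ew ∧ μ ≤ eu :=
    ⟨min ew eu, lt_min hw hu, min_le_left _ _, min_le_right _ _⟩
  obtain ⟨δ, hδ0, hδ1, hδ2⟩ : ∃ δ : ℝ, 0 < δ ∧ δ ≤ 1 / 4 ∧ δ * |C| ≤ μ := by
    refine ⟨min (1 / 4) (μ / |C|), lt_min (by norm_num) (by positivity), min_le_left _ _, ?_⟩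
    calc min (1 / 4) (μ / |C|) * |C| ≤ μ / |C| * |C| :=
          mul_le_mul_of_nonneg_right (min_le_right _ _) hC0.le
      _ = μ := by field_simp
  have h1 : |δ * C| ≤ μ := by rw [abs_mul, abs_of_pos hδ0]; exact hδ2
  rw [abs_le] at h1
  have h2 := key (-(δ * C)) (by linarith) (by linarith)
  have h3 : 0 < δ * C ^ 2 := by positivity
  have h4 : 4 * (-(δ * C)) ^ 2 + 2 * (-(δ * C)) * C = -(2 * (δ * C ^ 2)) * (1 - 2 * δ) := by ring
  rw [h4] at h2
  have h5 : 0 < 2 * (δ * C ^ 2) * (1 - 2 * δ) := by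
    apply mul_pos (by linarith)
    linarith
  linarith

namespace TriComplex

variable {X V : Type*} [MetricSpace X] {Γ : SimpleGraph V} {β : X → V → ℝ}

/-- the vertices of `S` and their neighbours -/
def Nb (Γ : SimpleGraph V) (S : Set V) : Set V := {v | v ∈ S ∨ ∃ a ∈ S, Γ.Adj v a}

lemma sp_nonempty (T : TriComplex Γ β) (x : X) : (sp β x).Nonempty := by
  by_contra h
  rw [Finset.not_nonempty_iff_eq_empty] at h
  have := T.sum_in (T.sp_in x)
  rw [h, Finset.sum_empty] at this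
  norm_num at this

/-- a point of the neighbourhood is at distance at most one from the convex subcomplex -/
lemma near_KS [CompleteSpace X] (T : TriComplex Γ β) (hX : CN X) {S : Set V} (hS : Conv β S)
    {x : X} (hx : KS β (Nb Γ S) x) : ∃ y, KS β S y ∧ dist x y ≤ 1 := by
  classical
  have hN : ∀ v ∈ sp β x, v ∈ Nb Γ S := by
    intro v hv
    by_contra hcon
    exact T.mem_sp.1 hv (hx v hcon)
  by_cases hex : ∃ v ∈ sp β x, v ∈ S
  · obtain ⟨v, hv, hvS⟩ := hex
    refine ⟨T.pt v, T.pt_ks hvS, ?_⟩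
    have h1 := T.dist_pt_le (T.sp_clique x) (T.sp_in x) hv
    have h2 := T.nonneg x v
    linarith
  · push Not at hex
    have hN' : ∀ v ∈ sp β x, ∃ a ∈ S, Γ.Adj v a := by
      intro v hv
      rcases hN v hv with h | h
      · exact absurd h (hex v hv)
      · exact h
    suffices H : ∃ c ∈ S, ∀ v ∈ sp β x, Γ.Adj v c by
      obtain ⟨c, hcS, hc⟩ := H
      have hcl : Γ.IsClique ((insert c (sp β x) : Finset V) : Set V) := by
        rw [Finset.coe_insert, SimpleGraph.isClique_insert]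
        exact ⟨T.sp_clique x, fun v hv _ => (hc v hv).symm⟩
      have hin : Ins β (insert c (sp β x)) x := by
        intro v hv
        apply T.sp_in x
        intro h
        exact hv (Finset.mem_insert_of_mem h)
      refine ⟨T.pt c, T.pt_ks hcS, ?_⟩
      have h1 := T.dist_pt_le hcl hin (Finset.mem_insert_self c _)
      have h2 := T.nonneg x c
      linarith
    have hcard := T.card_le (T.sp_clique x)
    have hpos : 0 < (sp β x).card := Finset.card_pos.2 (T.sp_nonempty x)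
    have hcl := T.sp_clique x
    obtain ⟨k, hk⟩ : ∃ k, (sp β x).card = k := ⟨_, rfl⟩
    rw [hk] at hcard hpos
    interval_cases k
    · obtain ⟨v, hv⟩ := Finset.card_eq_one.1 hk
      obtain ⟨a, ha, hva⟩ := hN' v (by rw [hv]; simp)
      refine ⟨a, ha, ?_⟩
      intro w hw
      rw [hv, Finset.mem_singleton] at hw
      rw [hw]
      exact hva
    · obtain ⟨v, w, hvw, hv⟩ := Finset.card_eq_two.1 hk
      have mv : v ∈ sp β x := by rw [hv]; simp
      have mw : w ∈ sp β x := by rw [hv]; simp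
      obtain ⟨a, ha, hva⟩ := hN' v mv
      obtain ⟨b, hb, hwb⟩ := hN' w mw
      obtain ⟨c, hc, h1, h2⟩ := T.Gb hX hS (hex v mv) (hex w mw) (hcl mv mw hvw) ha hb hva hwb
      refine ⟨c, hc, ?_⟩
      intro u hu
      rw [hv, Finset.mem_insert, Finset.mem_singleton] at hu
      rcases hu with rfl | rfl
      · exact h1
      · exact h2
    · exfalso
      obtain ⟨v1, v2, v3, h12, h13, h23, hv⟩ := Finset.card_eq_three.1 hk
      have m1 : v1 ∈ sp β x := by rw [hv]; simp
      have m2 : v2 ∈ sp β x := by rw [hv]; simp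
      have m3 : v3 ∈ sp β x := by rw [hv]; simp
      obtain ⟨a1, ha1, hva1⟩ := hN' v1 m1
      obtain ⟨a2, ha2, hva2⟩ := hN' v2 m2
      obtain ⟨a3, ha3, hva3⟩ := hN' v3 m3
      have d12 := hcl m1 m2 h12
      have d13 := hcl m1 m3 h13
      have d23 := hcl m2 m3 h23
      obtain ⟨c, hc, c1, c2⟩ := T.Gb hX hS (hex v1 m1) (hex v2 m2) d12 ha1 ha2 hva1 hva2
      obtain ⟨d, hd, d1, d3⟩ := T.Gb hX hS (hex v1 m1) (hex v3 m3) d13 ha1 ha3 hva1 hva3
      by_cases hcd : c = d
      · subst hcd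
        exact T.k4 v1 v2 v3 c d12 d13 c1 d23 c2 d3
      · have hadj := T.Ga hX hS (hex v1 m1) hc hd c1 d1 hcd
        have n1 : v2 ≠ d := by rintro rfl; exact hex _ m2 hd
        have n2 : c ≠ v3 := by rintro rfl; exact hex _ m3 hc
        rcases T.L4 hX c2 hadj d3.symm d23.symm n1 n2 with h | h
        · exact T.k4 v1 v2 c d d12 c1 d1 c2 h hadj
        · exact T.k4 v1 c d v3 c1 d1 d13 hadj h d3.symm

/-- combinatorial part of the convexity of the neighbourhood -/
lemma no_fold [CompleteSpace X] (T : TriComplex Γ β) (hX : CN X) {S : Set V} (hS : Conv β S)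
    {w u x y : V} (hw : w ∈ Nb Γ S) (hu : u ∉ Nb Γ S) (hx : x ∈ Nb Γ S) (hy : y ∈ Nb Γ S)
    (wu : Γ.Adj w u) (wx : Γ.Adj w x) (wy : Γ.Adj w y) (ux : Γ.Adj u x) (uy : Γ.Adj u y)
    (hxy : x ≠ y) : False := by
  have hwS : w ∉ S := fun h => hu (Or.inr ⟨w, h, wu.symm⟩)
  have hxS : x ∉ S := fun h => hu (Or.inr ⟨x, h, ux⟩)
  have hyS : y ∉ S := fun h => hu (Or.inr ⟨y, h, uy⟩)
  obtain ⟨a, ha, hwa⟩ := hw.resolve_left hwS
  obtain ⟨b, hb, hxb⟩ := hx.resolve_left hxS
  obtain ⟨c, hc, hyc⟩ := hy.resolve_left hyS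
  obtain ⟨d, hd, wd, xd⟩ := T.Gb hX hS hwS hxS wx ha hb hwa hxb
  obtain ⟨e, he, we, ye⟩ := T.Gb hX hS hwS hyS wy ha hc hwa hyc
  by_cases hde : d = e
  · subst hde
    have hud : u ≠ d := by rintro rfl; exact hu (Or.inl hd)
    rcases T.L4 hX ux xd ye.symm uy.symm hud hxy with h | h
    · exact hu (Or.inr ⟨d, hd, h⟩)
    · exact T.k4 w u x y wu wx wy ux uy h
  · have hadj := T.Ga hX hS hwS hd he wd we hde
    exact T.L5 hX w u x d e y wu wx wd we wy ux xd hadj ye.symm uy.symm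

lemma sum3 [DecidableEq V] {w u x : V} (h1 : w ≠ u) (h2 : w ≠ x) (h3 : u ≠ x) (f : V → ℝ) :
    ∑ v ∈ ({w, u, x} : Finset V), f v = f w + f u + f x := by
  rw [Finset.sum_insert (by simp [h1, h2]), Finset.sum_pair h3]
  ring

/-- planar computation at an edge crossed by a segment -/
lemma cross_edge (T : TriComplex Γ β) {w u x y : V}
    (wu : Γ.Adj w u) (wx : Γ.Adj w x) (wy : Γ.Adj w y) (ux : Γ.Adj u x) (uy : Γ.Adj u y)
    {a b e : X} [DecidableEq V] (ha : Ins β {w, u, x} a) (hb : Ins β {w, u, y} b)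
    (he : Ins β {w, u} e) (hew : 0 < β e w) (heu : 0 < β e u)
    (h1 : dist a e = dist e b) (h2 : dist a b = dist a e + dist e b) :
    β a x = β b y ∧ β a u + β b u = 2 * β e u - β a x ∧
      β a w + β b w = 2 * β e w - β a x := by
  have ca := clique_triple wu wx ux
  have cb := clique_triple wu wy uy
  have hea : Ins β {w, u, x} e := fun v hv => he v (by simp at hv ⊢; tauto)
  have heb : Ins β {w, u, y} e := fun v hv => he v (by simp at hv ⊢; tauto)
  have sa := T.sum_in ha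
  have sb := T.sum_in hb
  have se := T.sum_in he
  rw [sum3 wu.ne wx.ne ux.ne] at sa
  rw [sum3 wu.ne wy.ne uy.ne] at sb
  rw [Finset.sum_pair wu.ne] at se
  have ex : β e x = 0 := he x (by simp [wx.ne.symm, ux.ne.symm])
  have ey : β e y = 0 := he y (by simp [wy.ne.symm, uy.ne.symm])
  have da := T.metric _ a e ca ha hea
  have db := T.metric _ e b cb heb hb
  rw [sum3 wu.ne wx.ne ux.ne, ex] at da
  rw [sum3 wu.ne wy.ne uy.ne, ey] at db
  -- the variation of the point on the edge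
  have key : ∀ s : ℝ, 0 ≤ β e w + s → 0 ≤ β e u - s →
      0 ≤ 4 * s ^ 2 + 2 * s * (((β a u - β e u) - (β a w - β e w)) +
        ((β b u - β e u) - (β b w - β e w))) := by
    intro s hs1 hs2
    obtain ⟨f, hf⟩ := T.realise {w, u}
      (fun v => if v = w then β e w + s else if v = u then β e u - s else 0) (clique_pair wu)
      (fun v => by split_ifs <;> [exact hs1; exact hs2; exact le_rfl])
      (fun v hv => by
        simp only [Finset.mem_insert, Finset.mem_singleton, not_or] at hv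
        rw [if_neg hv.1, if_neg hv.2])
      (by rw [Finset.sum_pair wu.ne, if_pos rfl, if_neg wu.ne.symm, if_pos rfl]; linarith)
    have fw : β f w = β e w + s := by rw [hf]; simp
    have fu : β f u = β e u - s := by rw [hf]; simp [wu.ne.symm]
    have fx : β f x = 0 := by rw [hf]; simp [wx.ne.symm, ux.ne.symm]
    have fy : β f y = 0 := by rw [hf]; simp [wy.ne.symm, uy.ne.symm]
    have hfin : Ins β {w, u} f := by
      intro v hv
      simp only [Finset.mem_insert, Finset.mem_singleton, not_or] at hv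
      rw [hf]
      simp [hv.1, hv.2]
    have hfa : Ins β {w, u, x} f := fun v hv => hfin v (by simp at hv ⊢; tauto)
    have hfb : Ins β {w, u, y} f := fun v hv => hfin v (by simp at hv ⊢; tauto)
    have da' := T.metric _ a f ca ha hfa
    have db' := T.metric _ f b cb hfb hb
    rw [sum3 wu.ne wx.ne ux.ne, fw, fu, fx] at da'
    rw [sum3 wu.ne wy.ne uy.ne, fw, fu, fy] at db'
    have h3 := dist_triangle a f b
    have h4 : dist a b ^ 2 ≤ 2 * (dist a f ^ 2 + dist f b ^ 2) := by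
      have h5 : (0 : ℝ) ≤ dist a b := dist_nonneg
      nlinarith [sq_nonneg (dist a f - dist f b)]
    have h6 : dist a b ^ 2 = 2 * (dist a e ^ 2 + dist e b ^ 2) := by
      rw [h2, h1]; ring
    rw [h6, da, db, da', db'] at h4
    nlinarith
  have hC0 := vary_real hew heu key
  have hd : dist a e ^ 2 = dist e b ^ 2 := by rw [h1]
  rw [da, db] at hd
  exact cross_real sa sb se hC0 (by linarith) (T.nonneg a x) (T.nonneg b y)

end TriComplex

end Helper75tri
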