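import Mathlib
import Pool.Agent.Helper75_tri.Geom3

/-!
The neighbourhood of a convex subcomplex is convex (conclusion).
-/

namespace Helper75tri

open Finset

namespace TriComplex

variable {X V : Type*} [MetricSpace X] {Γ : SimpleGraph V} {β : X → V → ℝ}

/-- inside a closed simplex a weight of the midpoint is the mean of the weights -/
lemma wt_mid (T : TriComplex Γ β) (S : Set V) {s : Finset V} {a b e : X} (ha : Ins β s a)
    (hb : Ins β s b) (he : ∀ v, β e v = (1 - 1 / 2) * β a v + 1 / 2 * β b v) :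
    wt β S a + wt β S b = 2 * wt β S e := by
  classical
  have hes : Ins β s e := fun v hv => by rw [he, ha v hv, hb v hv]; ring
  rw [T.wt_eq S ha, T.wt_eq S hb, T.wt_eq S hes, ← Finset.sum_add_distrib, Finset.mul_sum]
  apply Finset.sum_congr rfl
  intro v _
  split_ifs
  · rw [he]; ring
  · ring

/-- local convexity of the complement weight at a point of height strictly between 0 and 1 -/
lemma local_convex [CompleteSpace X] (T : TriComplex Γ β) (hX : CN X) {S : Set V}
    (hS : Conv β S) {a b e : X} (h0 : 0 < wt β (Nb Γ S)ᶜ e) (h1 : wt β (Nb Γ S)ᶜ e < 1)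
    (hea : ∀ v ∈ sp β e, 0 < β a v) (heb : ∀ v ∈ sp β e, 0 < β b v)
    (hm : dist a e = dist e b) (hab : dist a b = dist a e + dist e b) :
    2 * wt β (Nb Γ S)ᶜ e ≤ wt β (Nb Γ S)ᶜ a + wt β (Nb Γ S)ᶜ b := by
  classical
  -- if the two points are in a common simplex
  have hdv : Dv a b (1 / 2) e := by
    apply Dv.of_dist hX (by norm_num) (by norm_num)
    · rw [hab, hm]; linarith
    · rw [hab, hm]; linarith
  have same : ∀ s : Finset V, Γ.IsClique (s : Set V) → Ins β s a → Ins β s b →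
      2 * wt β (Nb Γ S)ᶜ e ≤ wt β (Nb Γ S)ᶜ a + wt β (Nb Γ S)ᶜ b := by
    intro s hs hsa hsb
    exact (T.wt_mid _ hsa hsb (T.dv_coord hs hsa hsb (by norm_num) (by norm_num) hdv)).ge
  have sa : sp β e ⊆ sp β a := fun v hv => T.mem_sp.2 (hea v hv).ne'
  have sb : sp β e ⊆ sp β b := fun v hv => T.mem_sp.2 (heb v hv).ne'
  -- a vertex of `e` outside and a vertex inside
  obtain ⟨u, hu, huN⟩ : ∃ u ∈ sp β e, u ∉ Nb Γ S := by
    by_contra hcon
    push Not at hcon
    have : wt β (Nb Γ S)ᶜ e = 0 := by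
      apply T.wt_zero
      intro v hv
      by_contra hne
      exact hv (hcon v (T.mem_sp.2 hne))
    linarith
  obtain ⟨w, hw, hwN⟩ : ∃ w ∈ sp β e, w ∈ Nb Γ S := by
    by_contra hcon
    push Not at hcon
    have : wt β (Nb Γ S)ᶜ e = 1 := by
      apply T.wt_one
      intro v hv
      by_contra hne
      exact hv (hcon v (T.mem_sp.2 hne))
    linarith
  have hwu : w ≠ u := by rintro rfl; exact huN hwN
  have wu : Γ.Adj w u := T.sp_clique e hw hu hwu
  have ca := T.card_le (T.sp_clique a)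
  have cb := T.card_le (T.sp_clique b)
  by_cases hsub : sp β a ⊆ sp β b
  · exact same _ (T.sp_clique b) (fun v hv => T.sp_in a v fun h => hv (hsub h)) (T.sp_in b)
  by_cases hsub' : sp β b ⊆ sp β a
  · exact same _ (T.sp_clique a) (T.sp_in a) (fun v hv => T.sp_in b v fun h => hv (hsub' h))
  obtain ⟨x, hxa, hxb⟩ := Finset.not_subset.1 hsub
  obtain ⟨y, hyb, hya⟩ := Finset.not_subset.1 hsub'
  have wa := sa hw
  have ua := sa hu
  have wb := sb hw
  have ub := sb hu
  have hwx : w ≠ x := by rintro rfl; exact hxb wb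
  have hux : u ≠ x := by rintro rfl; exact hxb ub
  have hwy : w ≠ y := by rintro rfl; exact hya wa
  have huy : u ≠ y := by rintro rfl; exact hya ua
  have hxy : x ≠ y := by rintro rfl; exact hxb hyb
  have wx : Γ.Adj w x := T.sp_clique a wa hxa hwx
  have ux : Γ.Adj u x := T.sp_clique a ua hxa hux
  have wy : Γ.Adj w y := T.sp_clique b wb hyb hwy
  have uy : Γ.Adj u y := T.sp_clique b ub hyb huy
  have c3a : ({w, u, x} : Finset V).card = 3 := by
    rw [Finset.card_insert_of_notMem (by simp [hwu, hwx]), Finset.card_pair hux]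
  have c3b : ({w, u, y} : Finset V).card = 3 := by
    rw [Finset.card_insert_of_notMem (by simp [hwu, hwy]), Finset.card_pair huy]
  have ea : ({w, u, x} : Finset V) = sp β a := by
    apply Finset.eq_of_subset_of_card_le
    · intro v hv
      simp only [Finset.mem_insert, Finset.mem_singleton] at hv
      rcases hv with rfl | rfl | rfl
      · exact wa
      · exact ua
      · exact hxa
    · rw [c3a]; exact ca
  have eb : ({w, u, y} : Finset V) = sp β b := by
    apply Finset.eq_of_subset_of_card_le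
    · intro v hv
      simp only [Finset.mem_insert, Finset.mem_singleton] at hv
      rcases hv with rfl | rfl | rfl
      · exact wb
      · exact ub
      · exact hyb
    · rw [c3b]; exact cb
  have ia : Ins β {w, u, x} a := by rw [ea]; exact T.sp_in a
  have ib : Ins β {w, u, y} b := by rw [eb]; exact T.sp_in b
  have ie : Ins β {w, u} e := by
    intro v hv
    by_contra hne
    have hve := T.mem_sp.2 hne
    have h1 := sa hve
    have h2 := sb hve
    rw [← ea] at h1
    rw [← eb] at h2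
    simp only [Finset.mem_insert, Finset.mem_singleton, not_or] at hv h1 h2
    rcases h1 with h1 | h1 | h1
    · exact hv.1 h1
    · exact hv.2 h1
    · rcases h2 with h2 | h2 | h2
      · exact hv.1 h2
      · exact hv.2 h2
      · exact hxy (h1.symm.trans h2)
  obtain ⟨k1, k2, k3⟩ := T.cross_edge wu wx wy ux uy ia ib ie (T.sp_pos hw) (T.sp_pos hu) hm hab
  have hwa1 : x ∈ Nb Γ S → wt β (Nb Γ S)ᶜ a = β a u := fun hxN => by
    rw [T.wt_eq _ ia, sum3 hwu hwx hux, if_neg (by simpa using hwN), if_pos (by simpa using huN),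
      if_neg (by simpa using hxN), zero_add, add_zero]
  have hwa2 : x ∉ Nb Γ S → wt β (Nb Γ S)ᶜ a = β a u + β a x := fun hxN => by
    rw [T.wt_eq _ ia, sum3 hwu hwx hux, if_neg (by simpa using hwN), if_pos (by simpa using huN),
      if_pos (by simpa using hxN), zero_add]
  have hwb1 : y ∈ Nb Γ S → wt β (Nb Γ S)ᶜ b = β b u := fun hxN => by
    rw [T.wt_eq _ ib, sum3 hwu hwy huy, if_neg (by simpa using hwN), if_pos (by simpa using huN),
      if_neg (by simpa using hxN), zero_add, add_zero]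
  have hwb2 : y ∉ Nb Γ S → wt β (Nb Γ S)ᶜ b = β b u + β b y := fun hxN => by
    rw [T.wt_eq _ ib, sum3 hwu hwy huy, if_neg (by simpa using hwN), if_pos (by simpa using huN),
      if_pos (by simpa using hxN), zero_add]
  have hwe : wt β (Nb Γ S)ᶜ e = β e u := by
    rw [T.wt_eq _ ie, Finset.sum_pair hwu, if_neg (by simpa using hwN),
      if_pos (by simpa using huN)]
    ring
  have nx := T.nonneg a x
  have ny := T.nonneg b y
  by_cases hxN : x ∈ Nb Γ S
  · by_cases hyN : y ∈ Nb Γ S
    · exact (T.no_fold hX hS hwN huN hxN hyN wu wx wy ux uy hxy).elim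
    · rw [hwa1 hxN, hwb2 hyN, hwe]
      linarith
  · rw [hwa2 hxN, hwe]
    by_cases hyN : y ∈ Nb Γ S
    · rw [hwb1 hyN]
      linarith
    · rw [hwb2 hyN]
      linarith

lemma exists_delta (T : TriComplex Γ β) (e : X) : ∃ δ : ℝ, 0 < δ ∧ ∀ a : X, dist e a < δ →
    ∀ v ∈ sp β e, 0 < β a v := by
  obtain ⟨v0, hv0, hmin⟩ := Finset.exists_min_image (sp β e) (β e) (T.sp_nonempty e)
  have h0 := T.sp_pos hv0
  refine ⟨β e v0 / 2, by positivity, ?_⟩
  intro a ha v hv
  have h1 := hmin v hv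
  have h2 := T.lip_coord v e a
  have h3 : (0 : ℝ) ≤ dist e a := dist_nonneg
  by_contra hcon
  push Not at hcon
  have h4 : β e v0 ≤ β e v - β a v := by linarith
  have h5 : β e v0 ^ 2 ≤ (β e v - β a v) ^ 2 := pow_le_pow_left₀ h0.le h4 2
  nlinarith

/-- **The neighbourhood of a convex subcomplex is convex.** -/
theorem Gc [CompleteSpace X] (T : TriComplex Γ β) (hX : CN X) {S : Set V} (hS : Conv β S) :
    Conv β (Nb Γ S) := by
  classical
  intro x y hx hy l hl0 hl1 m hm
  by_contra hcon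
  -- the height
  set h : X → ℝ := wt β (Nb Γ S)ᶜ with hh
  have hhx : h x = 0 := T.wt_zero fun v hv => hx v hv
  have hhy : h y = 0 := T.wt_zero fun v hv => hy v hv
  have hhm : 0 < h m := by
    refine lt_of_le_of_ne (T.wt_nonneg _ m) fun h0 => ?_
    apply hcon
    intro v hv
    exact T.of_wt_zero h0.symm hv
  have hex : ∀ t : ℝ, t ∈ Set.Icc (0 : ℝ) 1 → ∃ c, Dv x y t c := fun t ht =>
    dv_exists hX x y t ht.1 ht.2
  have : Nonempty X := ⟨x⟩
  choose! γ hγ using hex
  set L := dist x y with hL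
  have hL0 : 0 ≤ L := dist_nonneg
  have hlip : ∀ s ∈ Set.Icc (0 : ℝ) 1, ∀ t ∈ Set.Icc (0 : ℝ) 1,
      dist (γ s) (γ t) = |s - t| * L := fun s hs t ht =>
    (hγ s hs).dist (hγ t ht) hs.1 hs.2 ht.1 ht.2
  let φ : ℝ → ℝ := fun t => h (γ t)
  have hφ : LipschitzOnWith ⟨2 * L, by positivity⟩ φ (Set.Icc 0 1) := by
    apply LipschitzOnWith.of_dist_le_mul
    intro s hs t ht
    have e1 := T.lip_wt (Nb Γ S)ᶜ (γ s) (γ t)
    rw [hlip s hs t ht] at e1
    rw [Real.dist_eq, Real.dist_eq]
    change |h (γ s) - h (γ t)| ≤ 2 * L * |s - t|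
    refine le_of_sq (by positivity) ?_
    rw [sq_abs]
    calc (h (γ s) - h (γ t)) ^ 2 ≤ 4 / 3 * (|s - t| * L) ^ 2 := e1
      _ ≤ (2 * L * |s - t|) ^ 2 := by nlinarith [sq_nonneg (|s - t| * L)]
  have hcont : ContinuousOn φ (Set.Icc 0 1) := hφ.continuousOn
  obtain ⟨t1, ht1, hmax⟩ := isCompact_Icc.exists_isMaxOn
    (Set.nonempty_Icc.2 (zero_le_one : (0 : ℝ) ≤ 1)) hcont
  -- the first point where the maximum is attained
  have hclosed : IsClosed (Set.Icc (0 : ℝ) 1 ∩ φ ⁻¹' {φ t1}) :=
    hcont.preimage_isClosed_of_isClosed isClosed_Icc isClosed_singleton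
  have hcomp : IsCompact (Set.Icc (0 : ℝ) 1 ∩ φ ⁻¹' {φ t1}) :=
    isCompact_Icc.of_isClosed_subset hclosed Set.inter_subset_left
  obtain ⟨t0, ht0, hleast⟩ := hcomp.exists_isLeast ⟨t1, ht1, rfl⟩
  obtain ⟨ht0I, ht0M⟩ := ht0
  have hM : φ t0 = φ t1 := ht0M
  have hmax' : ∀ t ∈ Set.Icc (0 : ℝ) 1, φ t ≤ φ t0 := by
    intro t ht
    rw [hM]
    exact hmax ht
  have hfirst : ∀ t ∈ Set.Icc (0 : ℝ) 1, t < t0 → φ t < φ t0 := by
    intro t ht htt
    refine lt_of_le_of_ne (hmax' t ht) fun heq => ?_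
    have := hleast ⟨ht, by
      change φ t = φ t1
      rw [heq, hM]⟩
    linarith
  have hlm : γ l = m := by
    have e1 := hm.left hl0 hl1
    have e2 := hm.right hl0 hl1
    exact ((hγ l ⟨hl0, hl1⟩).uniq hl0 hl1 e1.le e2.le).symm
  have hMpos : 0 < φ t0 := by
    have := hmax' l ⟨hl0, hl1⟩
    have h2 : φ l = h m := by change h (γ l) = h m; rw [hlm]
    linarith
  have m0 : (0 : ℝ) ∈ Set.Icc (0 : ℝ) 1 := ⟨le_rfl, zero_le_one⟩
  have m1 : (1 : ℝ) ∈ Set.Icc (0 : ℝ) 1 := ⟨zero_le_one, le_rfl⟩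
  have hφ0 : φ 0 = 0 := by
    have e1 := (hγ 0 m0).left le_rfl zero_le_one
    rw [zero_mul] at e1
    change h (γ 0) = 0
    rw [← dist_eq_zero.1 e1, hhx]
  have hφ1 : φ 1 = 0 := by
    have e1 := (hγ 1 m1).right zero_le_one le_rfl
    rw [sub_self, zero_mul] at e1
    change h (γ 1) = 0
    rw [dist_eq_zero.1 e1, hhy]
  have ht0pos : 0 < t0 := by
    refine lt_of_le_of_ne ht0I.1 fun heq => ?_
    rw [← heq, hφ0] at hMpos
    exact lt_irrefl _ hMpos
  have ht0lt : t0 < 1 := by
    refine lt_of_le_of_ne ht0I.2 fun heq => ?_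
    rw [heq, hφ1] at hMpos
    exact lt_irrefl _ hMpos
  -- the height is less than one
  have hlt : φ t0 < 1 := by
    obtain ⟨x', hx', dx⟩ := T.near_KS hX hS hx
    obtain ⟨y', hy', dy⟩ := T.near_KS hX hS hy
    obtain ⟨c, hc⟩ := dv_exists hX x' y' t0 ht0I.1 ht0I.2
    have hcK := hS x' y' hx' hy' t0 ht0I.1 ht0I.2 c hc
    have hd := (hγ t0 ht0I).convex hX hc ht0I.1 ht0I.2
    have hd1 : dist (γ t0) c ≤ 1 := by
      have g1 : (1 - t0) * dist x x' ≤ (1 - t0) * 1 :=
        mul_le_mul_of_nonneg_left dx (by linarith)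
      have g2 : t0 * dist y y' ≤ t0 * 1 := mul_le_mul_of_nonneg_left dy ht0pos.le
      linarith
    have hG : SLip Γ β (fun z => wt β S z + wt β (Nb Γ S) z) := by
      intro s hs z z' hz hz'
      by_cases hsS : ∃ v ∈ s, v ∈ S
      · obtain ⟨v, hv, hvS⟩ := hsS
        have hone : ∀ z, Ins β s z → wt β (Nb Γ S) z = 1 := by
          intro z hz
          apply T.wt_one
          intro u hu
          apply hz
          intro hus
          apply hu
          by_cases huv : u = v
          · rw [huv]; exact Or.inl hvS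
          · exact Or.inr ⟨v, hvS, hs hus hv huv⟩
        simp only [hone z hz, hone z' hz']
        have := T.slip_wt S s hs z z' hz hz'
        calc _ = (wt β S z - wt β S z') ^ 2 := by ring
          _ ≤ _ := this
      · push Not at hsS
        have hzero : ∀ z, Ins β s z → wt β S z = 0 := by
          intro z hz
          apply T.wt_zero
          intro u hu
          apply hz
          intro hus
          exact hsS u hus hu
        simp only [hzero z hz, hzero z' hz', zero_add]
        exact T.slip_wt _ s hs z z' hz hz'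
    have h2 := T.lip_of hG c (γ t0)
    have e1 : wt β S c = 1 := T.wt_one hcK
    have e2 : wt β (Nb Γ S) c = 1 := T.wt_one fun v hv => hcK v fun hvS => hv (Or.inl hvS)
    have e3 : wt β S (γ t0) = 0 := by
      apply T.wt_zero
      intro v hvS
      by_contra hne
      have hv := T.mem_sp.2 hne
      have : φ t0 = 0 := by
        change wt β (Nb Γ S)ᶜ (γ t0) = 0
        apply T.wt_zero
        intro u hu
        by_contra hne'
        have hu' := T.mem_sp.2 hne'
        apply hu
        by_cases huv : u = v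
        · rw [huv]; exact Or.inl hvS
        · exact Or.inr ⟨v, hvS, T.sp_clique _ hu' hv huv⟩
      linarith
    have e4 : wt β (Nb Γ S) (γ t0) = 1 - φ t0 := by
      have := T.wt_compl (Nb Γ S) (γ t0)
      change _ = 1 - wt β (Nb Γ S)ᶜ (γ t0)
      linarith
    simp only [e1, e2, e3, e4] at h2
    rw [dist_comm] at hd1
    have h3 : (0 : ℝ) ≤ dist c (γ t0) := dist_nonneg
    nlinarith
  obtain ⟨δ, hδ0, hδ⟩ := T.exists_delta (γ t0)
  obtain ⟨ε, hε0, hε1, hε2, hε3⟩ : ∃ ε : ℝ, 0 < ε ∧ ε ≤ t0 ∧ ε ≤ 1 - t0 ∧ ε * L < δ := by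
    refine ⟨min (min t0 (1 - t0)) (δ / (L + 1)), ?_, ?_, ?_, ?_⟩
    · exact lt_min (lt_min ht0pos (by linarith)) (by positivity)
    · exact (min_le_left _ _).trans (min_le_left _ _)
    · exact (min_le_left _ _).trans (min_le_right _ _)
    · have g1 : min (min t0 (1 - t0)) (δ / (L + 1)) * L ≤ δ / (L + 1) * L :=
        mul_le_mul_of_nonneg_right (min_le_right _ _) hL0
      have g2 : δ / (L + 1) * L < δ := by
        rw [div_mul_eq_mul_div, div_lt_iff₀ (by positivity)]
        nlinarith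
      linarith
  have ma : t0 - ε ∈ Set.Icc (0 : ℝ) 1 := ⟨by linarith, by linarith⟩
  have mb : t0 + ε ∈ Set.Icc (0 : ℝ) 1 := ⟨by linarith, by linarith⟩
  have da : dist (γ (t0 - ε)) (γ t0) = ε * L := by
    rw [hlip _ ma _ ht0I]
    congr 1
    rw [show t0 - ε - t0 = -ε by ring, abs_neg, abs_of_pos hε0]
  have db : dist (γ t0) (γ (t0 + ε)) = ε * L := by
    rw [hlip _ ht0I _ mb]
    congr 1
    rw [show t0 - (t0 + ε) = -ε by ring, abs_neg, abs_of_pos hε0]
  have dab : dist (γ (t0 - ε)) (γ (t0 + ε)) = ε * L + ε * L := by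
    rw [hlip _ ma _ mb, show t0 - ε - (t0 + ε) = -(2 * ε) by ring, abs_neg,
      abs_of_pos (by positivity)]
    ring
  have hfin := T.local_convex hX hS (a := γ (t0 - ε)) (b := γ (t0 + ε)) (e := γ t0) hMpos hlt
    (fun v hv => hδ _ (by rw [dist_comm, da]; exact hε3) v hv)
    (fun v hv => hδ _ (by rw [db]; exact hε3) v hv) (by rw [da, db]) (by rw [dab, da, db])
  have k1 : φ (t0 - ε) < φ t0 := hfirst _ ma (by linarith)
  have k2 : φ (t0 + ε) ≤ φ t0 := hmax' _ mb
  change 2 * φ t0 ≤ φ (t0 - ε) + φ (t0 + ε) at hfin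
  linarith

end TriComplex

end Helper75tri
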