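import Mathlib
import Pool.Agent.Helper75_tri.Cover
import Pool.Agent.Helper75_tri.Geom4

/-!
CAT(0) complexes of equilateral triangles: the front and the covers.
-/

namespace Helper75tri

open Finset

namespace TriComplex

variable {X V : Type*} [MetricSpace X] {Γ : SimpleGraph V} {β : X → V → ℝ}

lemma connected (T : TriComplex Γ β) (p : V) : Γ.Connected := by
  have : Nonempty V := ⟨p⟩
  refine ⟨fun v w => ?_⟩
  obtain ⟨n, z, h0, hn, hz, -⟩ := T.length (T.pt v) (T.pt w) 1 one_pos
  have H : ∀ m ≤ n, ∀ u ∈ sp β (z m), Γ.Reachable v u := by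
    intro m
    induction m with
    | zero =>
      intro _ u hu
      rw [h0] at hu
      have : u = v := by
        by_contra hne
        exact T.mem_sp.1 hu (T.pt_ne hne)
      rw [this]
    | succ m ih =>
      intro hm u hu
      obtain ⟨s, hs, hv⟩ := hz m (by omega)
      obtain ⟨u', hu'⟩ := T.sp_nonempty (z m)
      have h1 := ih (by omega) u' hu'
      have h2 : u' ∈ s := T.sp_sub (fun v hvs => (hv v hvs).1) hu'
      have h3 : u ∈ s := T.sp_sub (fun v hvs => (hv v hvs).2) hu
      by_cases heq : u' = u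
      · rw [← heq]; exact h1
      · exact h1.trans (hs h2 h3 heq).reachable
  have hw : w ∈ sp β (z n) := by
    rw [hn, T.mem_sp, T.pt_self]
    exact one_ne_zero
  exact H n le_rfl w hw

lemma conv_singleton (T : TriComplex Γ β) (p : V) : Conv β {p} := by
  have key : ∀ x : X, KS β {p} x → x = T.pt p := by
    intro x hx
    apply T.ext_pt
    funext v
    by_cases hv : v = p
    · subst hv
      rw [T.pt_self]
      have : Ins β {v} x := fun w hw => hx w (by simpa using hw)
      simpa using T.sum_in this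
    · rw [hx v hv, T.pt_ne hv]
  intro x y hx hy l h0 h1 m hm
  have e1 := key x hx
  have e2 := key y hy
  have e3 := hm.left h0 h1
  rw [e1, e2, dist_self, mul_zero] at e3
  rw [← dist_eq_zero.1 e3]
  exact T.pt_ks rfl

/-- the balls of the graph are convex -/
lemma conv_ball [CompleteSpace X] (T : TriComplex Γ β) (hX : CN X) (p : V) (n : ℕ) :
    Conv β {v | Γ.dist p v ≤ n} := by
  have hc := T.connected p
  induction n with
  | zero =>
    have : {v | Γ.dist p v ≤ 0} = {p} := by
      ext v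
      simp only [Set.mem_ofPred_eq, Nat.le_zero, Set.mem_singleton_iff]
      rw [hc.dist_eq_zero_iff]
      exact eq_comm
    rw [this]
    exact T.conv_singleton p
  | succ n ih =>
    have : {v | Γ.dist p v ≤ n + 1} = Nb Γ {v | Γ.dist p v ≤ n} := by
      ext v
      constructor
      · intro hv
        by_cases hle : Γ.dist p v ≤ n
        · exact Or.inl hle
        · right
          obtain ⟨w, hw⟩ := hc.exists_walk_length_eq_dist v p
          cases w with
          | nil => simp at hle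
          | @cons _ a _ hadj w' =>
            have h1 : Γ.dist a p ≤ w'.length := SimpleGraph.dist_le w'
            have h2 : w'.length + 1 = Γ.dist v p := by simpa using hw
            have h3 : Γ.dist p v ≤ n + 1 := hv
            refine ⟨a, ?_, hadj⟩
            change Γ.dist p a ≤ n
            rw [SimpleGraph.dist_comm (u := p) (v := a)]
            rw [SimpleGraph.dist_comm (u := p) (v := v)] at h3
            omega
      · rintro (hv | ⟨a, ha, hadj⟩)
        · exact Nat.le_succ_of_le hv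
        · have h1 : Γ.dist p v ≤ Γ.dist p a + Γ.dist a v := hc.dist_triangle
          have h2 : Γ.dist a v = 1 := SimpleGraph.dist_eq_one_iff_adj.mpr hadj.symm
          have h3 : Γ.dist p a ≤ n := ha
          change Γ.dist p v ≤ n + 1
          omega
    rw [this]
    exact T.Gc hX ih

/-- the combinatorial hypotheses hold -/
theorem front [CompleteSpace X] (T : TriComplex Γ β) (hX : CN X) (p : V) : Front Γ p where
  conn := T.connected p
  k4 := T.k4
  c5 := T.L5 hX
  P1 := by
    intro v a b ha hb hab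
    have h1 := ha.2
    have h2 := hb.2
    refine T.Ga hX (T.conv_ball hX p (Γ.dist p a)) (v := v) (a := a) (b := b) ?_ ?_ ?_ ha.1 hb.1
      hab
    · change ¬ (Γ.dist p v ≤ Γ.dist p a)
      omega
    · change Γ.dist p a ≤ Γ.dist p a
      exact le_rfl
    · change Γ.dist p b ≤ Γ.dist p a
      omega
  P2 := by
    intro v w hvw hl
    have hc := T.connected p
    -- the level is positive
    have hpos : 0 < Γ.dist p v := by
      rcases Nat.eq_zero_or_pos (Γ.dist p v) with h | h
      · have e1 := (hc.dist_eq_zero_iff).1 h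
        rw [hl] at h
        have e2 := (hc.dist_eq_zero_iff).1 h
        exact absurd (e1.symm.trans e2) hvw.ne
      · exact h
    have par : ∀ u : V, Γ.dist p u = Γ.dist p v → ∃ a, IsPar Γ p a u := by
      intro u hu
      obtain ⟨q, hq⟩ := hc.exists_walk_length_eq_dist u p
      cases q with
      | nil =>
        rw [SimpleGraph.dist_self] at hu
        omega
      | @cons _ a _ hadj q' =>
        refine ⟨a, hadj, ?_⟩
        have h1 : Γ.dist a p ≤ q'.length := SimpleGraph.dist_le q'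
        have h2 : q'.length + 1 = Γ.dist u p := by simpa using hq
        have h3 : Γ.dist u p ≤ Γ.dist u a + Γ.dist a p := hc.dist_triangle
        have h4 : Γ.dist u a = 1 := SimpleGraph.dist_eq_one_iff_adj.mpr hadj
        rw [SimpleGraph.dist_comm (u := p) (v := u), SimpleGraph.dist_comm (u := p) (v := a)]
        omega
    obtain ⟨a, ha⟩ := par v rfl
    obtain ⟨b, hb⟩ := par w hl.symm
    have e1 := ha.2
    have e2 := hb.2
    obtain ⟨c, hcB, hvc, hwc⟩ := T.Gb hX (T.conv_ball hX p (Γ.dist p a)) (v := v) (w := w)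
      (a := a) (b := b) (by change ¬ (Γ.dist p v ≤ Γ.dist p a); omega)
      (by change ¬ (Γ.dist p w ≤ Γ.dist p a); omega) hvw
      (by change Γ.dist p a ≤ Γ.dist p a; exact le_rfl)
      (by change Γ.dist p b ≤ Γ.dist p a; omega) ha.1 hb.1
    have h3 : Γ.dist p c ≤ Γ.dist p a := hcB
    have h4 : Γ.dist p v ≤ Γ.dist p c + Γ.dist c v := hc.dist_triangle
    have h5 : Γ.dist c v = 1 := SimpleGraph.dist_eq_one_iff_adj.mpr hvc.symm
    exact ⟨c, ⟨hvc, by omega⟩, ⟨hwc, by omega⟩⟩

/-- a vertex of large weight -/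
lemma exists_big (T : TriComplex Γ β) (x : X) : ∃ v, 1 / 3 ≤ β x v := by
  by_contra hcon
  push Not at hcon
  have h1 := T.sum_in (T.sp_in x)
  have h2 := T.card_le (T.sp_clique x)
  have h3 : ∑ v ∈ sp β x, β x v < ∑ v ∈ sp β x, (1 / 3 : ℝ) :=
    Finset.sum_lt_sum_of_nonempty (T.sp_nonempty x) fun v _ => hcon v
  rw [h1, Finset.sum_const, nsmul_eq_mul] at h3
  have h4 : ((sp β x).card : ℝ) ≤ 3 := by exact_mod_cast h2
  linarith

/-- the chosen vertex of large weight -/
noncomputable def nu (T : TriComplex Γ β) (x : X) : V := (T.exists_big x).choose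

lemma nu_spec (T : TriComplex Γ β) (x : X) : 1 / 3 ≤ β x (T.nu x) := (T.exists_big x).choose_spec

lemma nu_dist (T : TriComplex Γ β) (x : X) : dist x (T.pt (T.nu x)) ≤ 1 := by
  have h1 := T.nu_spec x
  have hm : T.nu x ∈ sp β x := T.mem_sp.2 (by linarith : (0 : ℝ) < β x (T.nu x)).ne'
  have h2 := T.dist_pt_le (T.sp_clique x) (T.sp_in x) hm
  linarith

lemma pt_dist_le (T : TriComplex Γ β) (p v w : V) : dist (T.pt v) (T.pt w) ≤ Γ.dist v w := by
  have hc := T.connected p
  obtain ⟨q, hq⟩ := hc.exists_walk_length_eq_dist v w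
  rw [← hq]
  clear hq
  induction q with
  | nil => simp
  | @cons a b c hadj q ih =>
    have h1 := dist_triangle (T.pt a) (T.pt b) (T.pt c)
    rw [T.dist_adj hadj] at h1
    rw [SimpleGraph.Walk.length_cons]
    push_cast
    linarith

lemma dist_le_nu (T : TriComplex Γ β) (p : V) (x y : X) :
    dist x y ≤ Γ.dist (T.nu x) (T.nu y) + 2 := by
  have h1 := T.nu_dist x
  have h2 := T.nu_dist y
  have h3 := T.pt_dist_le p (T.nu x) (T.nu y)
  have h4 := dist_triangle4 x (T.pt (T.nu x)) (T.pt (T.nu y)) y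
  rw [dist_comm (T.pt (T.nu y)) y] at h4
  linarith

/-- nearby points have equal or adjacent chosen vertices -/
lemma nu_close (T : TriComplex Γ β) {x y : X} (h : dist x y ≤ 1 / 4) :
    Γ.dist (T.nu x) (T.nu y) ≤ 1 := by
  have h1 := T.nu_spec x
  have h2 := T.lip_coord (T.nu x) x y
  have h3 : (0 : ℝ) ≤ dist x y := dist_nonneg
  have h4 : 0 < β y (T.nu x) := by
    by_contra hcon
    push Not at hcon
    have h5 : 1 / 3 ≤ β x (T.nu x) - β y (T.nu x) := by linarith
    have h6 : (1 / 3 : ℝ) ^ 2 ≤ (β x (T.nu x) - β y (T.nu x)) ^ 2 :=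
      pow_le_pow_left₀ (by norm_num) h5 2
    nlinarith
  have h5 := T.nu_spec y
  have m1 : T.nu x ∈ sp β y := T.mem_sp.2 h4.ne'
  have m2 : T.nu y ∈ sp β y := T.mem_sp.2 (by linarith : (0 : ℝ) < β y (T.nu y)).ne'
  by_cases heq : T.nu x = T.nu y
  · rw [heq, SimpleGraph.dist_self]; omega
  · exact (SimpleGraph.dist_eq_one_iff_adj.mpr (T.sp_clique y m1 m2 heq)).le

lemma nu_lip [CompleteSpace X] (T : TriComplex Γ β) (hX : CN X) (p : V) {x y : X} {N : ℕ}
    (hN : 0 < N) (h : dist x y ≤ N / 4) : Γ.dist (T.nu x) (T.nu y) ≤ N + 2 := by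
  have hc := T.connected p
  have hNr : (0 : ℝ) < N := by exact_mod_cast hN
  have hex : ∀ i : ℕ, i ≤ N → ∃ c, Dv x y ((i : ℝ) / N) c := fun i hi =>
    dv_exists hX x y _ (by positivity) (by
      rw [div_le_one hNr]
      exact_mod_cast hi)
  have : Nonempty X := ⟨x⟩
  choose! γ hγ using hex
  have hb : ∀ i : ℕ, i ≤ N → (0 : ℝ) ≤ (i : ℝ) / N ∧ (i : ℝ) / N ≤ 1 := fun i hi =>
    ⟨by positivity, by
      rw [div_le_one hNr]
      exact_mod_cast hi⟩
  have hstep : ∀ i : ℕ, i + 1 ≤ N → dist (γ i) (γ (i + 1)) ≤ 1 / 4 := by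
    intro i hi
    have b1 := hb i (by omega)
    have b2 := hb (i + 1) hi
    rw [(hγ i (by omega)).dist (hγ (i + 1) hi) b1.1 b1.2 b2.1 b2.2]
    have : ((i : ℝ) / N - ((i + 1 : ℕ) : ℝ) / N) = -(1 / N) := by
      push_cast
      field_simp
      ring
    rw [this, abs_neg, abs_of_pos (by positivity)]
    calc 1 / (N : ℝ) * dist x y ≤ 1 / (N : ℝ) * (N / 4) :=
          mul_le_mul_of_nonneg_left h (by positivity)
      _ = 1 / 4 := by field_simp
  have H : ∀ m ≤ N, Γ.dist (T.nu (γ 0)) (T.nu (γ m)) ≤ m := by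
    intro m
    induction m with
    | zero => intro _; rw [SimpleGraph.dist_self]
    | succ m ih =>
      intro hm
      have h1 := ih (by omega)
      have h2 := T.nu_close (hstep m hm)
      have h3 : Γ.dist (T.nu (γ 0)) (T.nu (γ (m + 1))) ≤
          Γ.dist (T.nu (γ 0)) (T.nu (γ m)) + Γ.dist (T.nu (γ m)) (T.nu (γ (m + 1))) :=
        hc.dist_triangle
      omega
  have e0 : γ 0 = x := by
    have e1 := (hγ 0 (by omega)).left (hb 0 (by omega)).1 (hb 0 (by omega)).2
    rw [Nat.cast_zero, zero_div, zero_mul] at e1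
    exact (dist_eq_zero.1 e1).symm
  have e1 : γ N = y := by
    have e1 := (hγ N le_rfl).right (hb N le_rfl).1 (hb N le_rfl).2
    rw [div_self hNr.ne', sub_self, zero_mul] at e1
    exact dist_eq_zero.1 e1
  have := H N le_rfl
  rw [e0, e1] at this
  omega

/-- **Covers of CAT(0) complexes of equilateral triangles.** -/
theorem covers [CompleteSpace X] (T : TriComplex Γ β) (hX : CN X) (R : ℝ) (hR : 0 < R) :
    ∃ (𝒰 : Set (Set X)) (c : Set X → Fin 3),
      (∀ x : X, ∃ U ∈ 𝒰, x ∈ U) ∧
      (∀ U ∈ 𝒰, ∀ x ∈ U, ∀ y ∈ U, dist x y ≤ 1000 * (R + 1)) ∧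
      (∀ U ∈ 𝒰, ∀ W ∈ 𝒰, U ≠ W → c U = c W → ∀ x ∈ U, ∀ y ∈ W, R ≤ dist x y) := by
  rcases isEmpty_or_nonempty X with hE | ⟨⟨x0⟩⟩
  · exact ⟨∅, fun _ => 0, fun x => (hE.false x).elim, by simp, by simp⟩
  obtain ⟨p, -⟩ := T.exists_big x0
  obtain ⟨N, hN⟩ : ∃ N : ℕ, N = ⌈4 * R⌉₊ := ⟨_, rfl⟩
  have hN0 : 0 < N := by rw [hN]; exact Nat.ceil_pos.2 (by positivity)
  have hN1 : 4 * R ≤ N := by rw [hN]; exact Nat.le_ceil _
  have hN2 : (N : ℝ) < 4 * R + 1 := by rw [hN]; exact Nat.ceil_lt_add_one (by positivity)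
  obtain ⟨𝒰, c, h1, h2, h3⟩ := (T.front hX p).cover T.nu R 2 (N + 2)
    (fun x y hxy => T.nu_lip hX p hN0 (by linarith)) (T.dist_le_nu p)
  refine ⟨𝒰, c, h1, fun U hU x hx y hy => (h2 U hU x hx y hy).trans ?_, h3⟩
  push_cast
  linarith

end TriComplex

end Helper75tri
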